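import Pool.Agent.U211.BL.Core
import Pool.Agent.Y73.SH.Glob

/-!
# The smoothed map: definition and smoothness
-/

set_option autoImplicit false

open Set Filter Topology Metric Function MeasureTheory
open scoped Manifold ContDiff

noncomputable section

namespace Pool.Agent.U211.BL

open Pool.Agent.Y522

/-- invertible derivative -/
theorem LD_of_pos {n : ℕ} {f : E n → E n} {z : E n} (hf : ∀ᶠ y in 𝓝 z, ContDiffAt ℝ ∞ f y)
    (h : ∀ u : E n, ‖u‖ = 1 → fderiv ℝ f z u ≠ 0) : LD n f z := by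
  have hinj : Injective (fderiv ℝ f z) := by
    rw [injective_iff_map_eq_zero]
    intro v hv
    by_contra hv0
    have hn : ‖v‖ ≠ 0 := norm_ne_zero_iff.2 hv0
    apply h (‖v‖⁻¹ • v)
    · rw [norm_smul, norm_inv, norm_norm, inv_mul_cancel₀ hn]
    · rw [map_smul, hv, smul_zero]
  let e : E n ≃L[ℝ] E n :=
    (LinearEquiv.ofInjectiveEndo (fderiv ℝ f z : E n →ₗ[ℝ] E n) hinj).toContinuousLinearEquiv
  have he : (e : E n →L[ℝ] E n) = fderiv ℝ f z := by
    ext v
    rfl
  refine LD_of_contDiffAt hf e ?_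
  rw [he]
  exact (hf.self_of_nhds.differentiableAt (by simp)).hasFDerivAt

variable {n : ℕ} {X : Type} [TopologicalSpace X] [ChartedSpace (E n) X]

/-- from a box to the manifold -/
theorem LD_of_box {A : E n → X} (hA : Box A) {f : X → E n} {y : E n} (hy : ‖y‖ < 2)
    (h : LD n (fun y => f (A y)) y) : LD n f (A y) := by
  have h1 : LD n (fun x => f (A (iv A x))) (A y) := by
    refine LD.comp_fun (g := fun y => f (A y)) (f := iv A) ?_ (iv_ld hA hy)
    rw [iv_of hA hy.le]
    exact h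
  exact h1.congr (F_near hA hy)

variable {r₀ : ℝ} (K : Ker n r₀) {N : ℕ} (B : Fin N → E n → X) (F : X → E n)
  (c : Fin N → E n → ℝ)

/-- the smoothed map -/
def Fs (x : X) : E n := F x + ∑ i, wt B i x • (Mi K (B i) F (c i) x - F x)

omit [TopologicalSpace X] [ChartedSpace (E n) X] in
theorem Fs_off {x : X} (hx : ∀ i, x ∉ B i '' closedBall 0 1) : Fs K B F c x = F x := by
  unfold Fs
  rw [Finset.sum_eq_zero, add_zero]
  intro i _
  rw [Mi_off K (hx i), sub_self, smul_zero]

omit [TopologicalSpace X] [ChartedSpace (E n) X] in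
theorem Fs_eq_sum {x : X} (hx : ∑ i, wt B i x = 1) :
    Fs K B F c x = ∑ i, wt B i x • Mi K (B i) F (c i) x := by
  unfold Fs
  simp only [smul_sub]
  rw [Finset.sum_sub_distrib, ← Finset.sum_smul, hx, one_smul, add_sub_cancel]

variable {B F c} (hB : ∀ i, Box (B i)) (hF : Continuous F) (hc : ∀ i, Rad (c i))
include hB hF hc

theorem Mi_close {a ρ₁ δ : ℝ} (i : Fin N) (ha : 0 < a) (hρ1 : 1 ≤ ρ₁)
    (up : ∀ p ∈ closedBall (0 : E n) 2, ∀ q ∈ closedBall (0 : E n) 2,
      ‖F (B i p) - F (B i q)‖ ≤ ρ₁ * (a * ‖p - q‖)) (hδ : ∀ z, a * c i z ≤ δ) (hδ0 : 0 ≤ δ) (x : X) :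
    ‖Mi K (B i) F (c i) x - F x‖ ≤ ρ₁ * δ := by
  by_cases hx : x ∈ B i '' closedBall 0 1
  · obtain ⟨z, hz, rfl⟩ := hx
    rw [mem_closedBall_zero_iff] at hz
    rw [Mi_of K (hB i) (hc i).zero (by linarith)]
    refine (mol_close K (G := fun z => F (B i z)) ha hρ1 (contOn (hB i) hF) up (hc i).nonneg
      (hc i).le (by linarith)).trans ?_
    exact mul_le_mul_of_nonneg_left (hδ z) (by linarith)
  · rw [Mi_off K hx, sub_self, norm_zero]
    positivity

theorem Fs_close {a : Fin N → ℝ} {ρ₁ δ : ℝ} (ha : ∀ i, 0 < a i) (hρ1 : 1 ≤ ρ₁)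
    (up : ∀ i, ∀ p ∈ closedBall (0 : E n) 2, ∀ q ∈ closedBall (0 : E n) 2,
      ‖F (B i p) - F (B i q)‖ ≤ ρ₁ * (a i * ‖p - q‖)) (hδ : ∀ i z, a i * c i z ≤ δ) (hδ0 : 0 ≤ δ)
    (x : X) : ‖Fs K B F c x - F x‖ ≤ ρ₁ * δ := by
  unfold Fs
  rw [add_sub_cancel_left]
  calc ‖∑ i, wt B i x • (Mi K (B i) F (c i) x - F x)‖
      ≤ ∑ i, ‖wt B i x • (Mi K (B i) F (c i) x - F x)‖ := norm_sum_le _ _
    _ ≤ ∑ i, wt B i x * (ρ₁ * δ) := by
        apply Finset.sum_le_sum
        intro i _
        rw [norm_smul, Real.norm_of_nonneg (wt_nonneg B i x)]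
        exact mul_le_mul_of_nonneg_left (Mi_close K hB hF hc i (ha i) hρ1 (up i) (hδ i) hδ0 x)
          (wt_nonneg B i x)
    _ = (∑ i, wt B i x) * (ρ₁ * δ) := by rw [Finset.sum_mul]
    _ ≤ 1 * (ρ₁ * δ) := mul_le_mul_of_nonneg_right (wt_sum_le B x) (by positivity)
    _ = ρ₁ * δ := one_mul _

theorem Fs_norm_lt (h1 : ∀ x, ‖F x‖ < 1) (x : X) : ‖Fs K B F c x‖ < 1 := by
  obtain ⟨κ, hκ, hκi⟩ := Pool.Agent.Y73.SH.exists_lower (fun i => 1 - ‖Mi K (B i) F (c i) x‖)
    (fun i => sub_pos.2 (Mi_norm_lt K (hB i) hF (hc i) h1 x))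
  obtain ⟨μ, hμ⟩ : ∃ μ, μ = max ‖F x‖ (1 - κ) := ⟨_, rfl⟩
  have hμ1 : μ < 1 := by
    rw [hμ]
    exact max_lt (h1 x) (by linarith)
  have hμF : ‖F x‖ ≤ μ := hμ ▸ le_max_left _ _
  have hμM : ∀ i, ‖Mi K (B i) F (c i) x‖ ≤ μ := by
    intro i
    have h2 := hκi i
    have h3 : 1 - κ ≤ μ := hμ ▸ le_max_right _ _
    linarith
  have h2 : Fs K B F c x = (1 - ∑ i, wt B i x) • F x + ∑ i, wt B i x • Mi K (B i) F (c i) x := by
    unfold Fs
    simp only [smul_sub]
    rw [Finset.sum_sub_distrib, ← Finset.sum_smul, sub_smul, one_smul]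
    abel
  have h3 : 0 ≤ 1 - ∑ i, wt B i x := sub_nonneg.2 (wt_sum_le B x)
  rw [h2]
  calc _ ≤ ‖(1 - ∑ i, wt B i x) • F x‖ + ‖∑ i, wt B i x • Mi K (B i) F (c i) x‖ := norm_add_le _ _
    _ ≤ (1 - ∑ i, wt B i x) * μ + ∑ i, wt B i x * μ := by
        apply add_le_add
        · rw [norm_smul, Real.norm_of_nonneg h3]
          exact mul_le_mul_of_nonneg_left hμF h3
        · refine (norm_sum_le _ _).trans (Finset.sum_le_sum fun i _ => ?_)
          rw [norm_smul, Real.norm_of_nonneg (wt_nonneg B i x)]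
          exact mul_le_mul_of_nonneg_left (hμM i) (wt_nonneg B i x)
    _ = μ := by
        rw [← Finset.sum_mul]
        ring
    _ < 1 := hμ1

variable [T2Space X]

/-- smoothness at the points where `F` is a local diffeomorphism -/
theorem Fs_smooth_LD {x : X} (hx : LD n F x) : Sm n (Fs K B F c) x := by
  have h1 : ContMDiffAt (𝓡 n) (𝓡 n) ∞
      (fun x => ∑ i, wt B i x • (Mi K (B i) F (c i) x - F x)) x := by
    apply contMDiffAt_finsetSum
    intro i _
    exact (wt_smooth B hB i x).smul ((Mi_smooth_LD K (hB i) hF (hc i) hx).sub hx.contMDiffAt)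
  exact hx.contMDiffAt.add h1

/-- points where nothing changes -/
theorem Fs_LD_null {x : X} (hx : LD n F x) (h0 : ∀ i z, B i z = x → c i z = 0) :
    LD n (Fs K B F c) x := by
  by_cases hj : ∃ j, x ∈ B j '' closedBall 0 (3 / 4)
  · obtain ⟨j, y, hy, rfl⟩ := hj
    rw [mem_closedBall_zero_iff] at hy
    apply LD_of_box (hB j) (by linarith)
    have hFA : HasFDerivAt (fun y => F (B j y)) (fderiv ℝ (fun y => F (B j y)) y) y :=
      ((ev_smooth (hB j) (by linarith) hx).self_of_nhds.differentiableAt (by simp)).hasFDerivAt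
    obtain ⟨e, he⟩ := (LD.comp_fun hx ((hB j).ld y (by rw [mem_closedBall_zero_iff]; linarith)) :
      LD n (fun y => F (B j y)) y).exists_equiv
    have hD : HasFDerivAt (fun y => Fs K B F c (B j y)) (fderiv ℝ (fun y => F (B j y)) y) y := by
      have h1 : ∀ i, HasFDerivAt (fun y => wt B i (B j y) • (Mi K (B i) F (c i) (B j y) - F (B j y)))
          (0 : E n →L[ℝ] E n) y := by
        intro i
        have hw : HasFDerivAt (fun y => wt B i (B j y)) (fderiv ℝ (fun y => wt B i (B j y)) y) y :=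
          ((smooth_in_box (hB j) (by linarith) (wt_smooth B hB i _)).differentiableAt
            (by simp)).hasFDerivAt
        have hM := Mi_deriv_null K (hB j) (hB i) (hc i) (by linarith) hx
          (fun z hz => h0 i z hz.symm)
        have h2 : HasFDerivAt
            (fun y => wt B i (B j y) • (Mi K (B i) F (c i) (B j y) - F (B j y)))
            (wt B i (B j y) • (fderiv ℝ (fun y => F (B j y)) y - fderiv ℝ (fun y => F (B j y)) y) +
              (fderiv ℝ (fun y => wt B i (B j y)) y).smulRight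
                (Mi K (B i) F (c i) (B j y) - F (B j y))) y := hw.smul (hM.sub hFA)
        have hval : Mi K (B i) F (c i) (B j y) - F (B j y) = 0 := by
          by_cases hm : B j y ∈ B i '' closedBall 0 1
          · obtain ⟨z, hz, hzy⟩ := hm
            rw [mem_closedBall_zero_iff] at hz
            rw [← hzy, Mi_of K (hB i) (hc i).zero (by linarith), moll_const K (h0 i z hzy), sub_self]
          · rw [Mi_off K hm, sub_self]
        rw [sub_self, smul_zero, hval, zero_add] at h2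
        have h3 : (fderiv ℝ (fun y => wt B i (B j y)) y).smulRight (0 : E n) = 0 := by
          ext v
          simp
        rwa [h3] at h2
      have h2 : HasFDerivAt (fun y => ∑ i, wt B i (B j y) •
          (Mi K (B i) F (c i) (B j y) - F (B j y))) (∑ _i : Fin N, (0 : E n →L[ℝ] E n)) y :=
        HasFDerivAt.fun_sum fun i _ => h1 i
      rw [Finset.sum_const_zero] at h2
      have h3 := hFA.add h2
      rw [add_zero] at h3
      exact h3
    refine LD_of_contDiffAt ?_ e ?_
    · have h1 : ∀ᶠ w in 𝓝 y, ‖w‖ < 2 := continuous_norm.continuousAt.eventually_lt_const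
        (by linarith)
      have h2 : ∀ᶠ w in 𝓝 y, LD n F (B j w) :=
        ((hB j).ld y (by rw [mem_closedBall_zero_iff]; linarith)).continuousAt.eventually
          hx.eventually
      filter_upwards [h1, h2] with w hw1 hw2
      exact contMDiffAt_iff_contDiffAt.1 ((Fs_smooth_LD K hB hF hc hw2).comp w
        ((hB j).ld w (by rw [mem_closedBall_zero_iff]; linarith)).contMDiffAt)
    · rw [← he.fderiv]
      exact hD
  · push Not at hj
    refine hx.congr ?_
    have h1 : ∀ i, ∀ᶠ y in 𝓝 x, y ∉ B i '' closedBall 0 (3 / 4) := fun i =>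
      (box_isCompact (hB i) (by norm_num)).isClosed.isOpen_compl.mem_nhds (hj i)
    filter_upwards [eventually_all.2 h1] with y hy
    unfold Fs
    rw [Finset.sum_eq_zero, add_zero]
    intro i _
    rw [wt_zero B hB (hy i), zero_smul]

end Pool.Agent.U211.BL
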