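import Pool.Agent.U211.BL.Asm

/-!
# The smoothed map is a local diffeomorphism where the radius is positive
-/

set_option autoImplicit false

open Set Filter Topology Metric Function MeasureTheory
open scoped Manifold ContDiff

noncomputable section

namespace Pool.Agent.U211.BL

open Pool.Agent.Y522

variable {n : ℕ} {X : Type} [TopologicalSpace X] [ChartedSpace (E n) X] [T2Space X]

variable {r₀ : ℝ} (K : Ker n r₀) {N : ℕ} {B : Fin N → E n → X} {F : X → E n}
  {c : Fin N → E n → ℝ} {a : Fin N → ℝ} {ρ₁ ρ η κ ε β C Cχ : ℝ}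

/-- the numerical conditions -/
structure Num (n : ℕ) (r₀ ρ₁ ρ η κ : ℝ) : Prop where
  r0 : 0 < r₀
  one : 1 ≤ ρ₁
  η0 : 0 ≤ η
  η1 : η ≤ 1
  ηρ : ρ₁ + η ≤ ρ
  ηρ' : 1 / ρ ≤ 1 / ρ₁ - η
  two : ρ ≤ 2
  κ0 : 0 < κ
  κ1 : κ ≤ 2 - (ρ ^ 2 - 1) * (Real.sqrt n / r₀) / ρ
  κη : 13 * ρ ^ 2 * η * (Real.sqrt n / r₀) ≤ κ

/-- the geometric conditions on a box -/
structure BLip (F : X → E n) (ρ₁ : ℝ) (A : E n → X) (α : ℝ) : Prop where
  pos : 0 < α
  low : ∀ p ∈ closedBall (0 : E n) 2, ∀ q ∈ closedBall (0 : E n) 2,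
      α * ‖p - q‖ ≤ ‖F (A p) - F (A q)‖
  up : ∀ p ∈ closedBall (0 : E n) 2, ∀ q ∈ closedBall (0 : E n) 2,
      ‖F (A p) - F (A q)‖ ≤ ρ₁ * (α * ‖p - q‖)

theorem term (hN : Num n r₀ ρ₁ ρ η κ) (hB : ∀ i, Box (B i)) (hF : Continuous F)
    (hc : ∀ i, Rad (c i)) (hA : ∀ i, BLip F ρ₁ (B i) (a i)) {i j : Fin N}
    (hlip : ∀ y z, |c i y - c i z| ≤ β * ‖y - z‖) (hβ : 8 * ρ ^ 2 * β ≤ κ)
    (hε : ε * a i ≤ η * a j) {y : E n} (hy : ‖y‖ ≤ 3 / 4) (hC : 0 < C)
    (hcz : ∀ z, ‖z‖ ≤ 3 / 4 → B i z = B j y → c i z = C / a i) (hCα : C / a j ≤ 1 / 4)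
    (htr : ∀ z, ‖z‖ ≤ 1 → B j y = B i z → ∀ v : E n, ‖v‖ ≤ C / a j →
      ‖tr (B j) (B i) (y + v)‖ ≤ 2 ∧ B i (tr (B j) (B i) (y + v)) = B j (y + v) ∧
      ‖tr (B j) (B i) (y + v) - z - fderiv ℝ (tr (B j) (B i)) y v‖ ≤ ε * ‖v‖)
    (hCχ : ‖fderiv ℝ (fun y => wt B i (B j y)) y‖ ≤ Cχ) :
    ∃ L : E n →L[ℝ] E n, HasFDerivAt (fun y => wt B i (B j y) • Mi K (B i) F (c i) (B j y))
      (wt B i (B j y) • L + (fderiv ℝ (fun y => wt B i (B j y)) y).smulRight
        (Mi K (B i) F (c i) (B j y))) y ∧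
      (∀ u : E n, ‖u‖ = 1 → wt B i (B j y) * (a j * C * κ / (4 * ρ)) ≤ wt B i (B j y) *
        inner ℝ (L u) (F (B j (y + (C / a j) • u)) - F (B j (y - (C / a j) • u)))) ∧
      (∀ u : E n, ‖u‖ = 1 → |fderiv ℝ (fun y => wt B i (B j y)) y u| *
        ‖Mi K (B i) F (c i) (B j y) - F (B j y)‖ ≤ Cχ * (ρ₁ * C)) := by
  have hCχ0 : 0 ≤ Cχ := (norm_nonneg _).trans hCχ
  have hρ10 : 0 ≤ ρ₁ := by linarith [hN.one]
  have hw : HasFDerivAt (fun y => wt B i (B j y)) (fderiv ℝ (fun y => wt B i (B j y)) y) y :=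
    ((smooth_in_box (hB j) (by linarith) (wt_smooth B hB i _)).differentiableAt
      (by simp)).hasFDerivAt
  by_cases hm : B j y ∈ B i '' closedBall 0 (3 / 4)
  · obtain ⟨z, hz, hzy⟩ := hm
    rw [mem_closedBall_zero_iff] at hz
    have hczz := hcz z hz hzy
    have hcpos : 0 < c i z := by
      rw [hczz]
      exact div_pos hC (hA i).pos
    refine ⟨(fderiv ℝ (Mol K (fun z => F (B i z)) (c i)) z).comp
      (fderiv ℝ (tr (B j) (B i)) y), ?_, ?_, ?_⟩
    · exact hw.smul (Mi_deriv_pos K (hB j) (hB i) hF (hc i) (by linarith) hzy.symm hcpos)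
    · intro u hu
      apply mul_le_mul_of_nonneg_left _ (wt_nonneg B i _)
      exact core K hN.r0 (hB i) hF (hA j).pos (hA i).pos hN.one (hA j).low (hA j).up (hA i).low
        (hA i).up (hc i) hlip hy hz hzy.symm hC hczz hCα (htr z (by linarith) hzy.symm) hε
        hN.η0 hN.η1 hN.ηρ hN.ηρ' hN.two hN.κ0.le hN.κ1 hN.κη hβ hu
    · intro u hu
      apply mul_le_mul _ _ (norm_nonneg _) hCχ0
      · have h1 := (fderiv ℝ (fun y => wt B i (B j y)) y).le_opNorm u
        rw [hu, mul_one, Real.norm_eq_abs] at h1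
        exact h1.trans hCχ
      · rw [← hzy, Mi_of K (hB i) (hc i).zero (by linarith)]
        refine (mol_close K (G := fun z => F (B i z)) (hA i).pos hN.one (contOn (hB i) hF)
          (hA i).up (hc i).nonneg (hc i).le (by linarith)).trans (le_of_eq ?_)
        rw [hczz, mul_div_cancel₀ _ (hA i).pos.ne']
  · have hev : ∀ᶠ w in 𝓝 y, wt B i (B j w) = 0 := by
      have h1 : ∀ᶠ x in 𝓝 (B j y), x ∉ B i '' closedBall 0 (3 / 4) :=
        (box_isCompact (hB i) (by norm_num)).isClosed.isOpen_compl.mem_nhds hm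
      filter_upwards [((hB j).ld y (by rw [mem_closedBall_zero_iff]; linarith)).continuousAt.eventually
        h1] with w hw
      exact wt_zero B hB hw
    have h0 : wt B i (B j y) = 0 := hev.self_of_nhds
    have hd : fderiv ℝ (fun y => wt B i (B j y)) y = 0 := by
      have h2 : (fun y => wt B i (B j y)) =ᶠ[𝓝 y] fun _ => (0 : ℝ) := hev
      rw [h2.fderiv_eq]
      simp
    refine ⟨0, ?_, ?_, ?_⟩
    · rw [h0, hd]
      have h3 : (0 : ℝ) • (0 : E n →L[ℝ] E n) + (0 : E n →L[ℝ] ℝ).smulRight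
          (Mi K (B i) F (c i) (B j y)) = 0 := by
        ext v
        simp
      rw [h3]
      refine (hasFDerivAt_const (0 : E n) y).congr_of_eventuallyEq ?_
      filter_upwards [hev] with w hw
      rw [hw, zero_smul]
    · intro u _
      rw [h0, zero_mul, zero_mul]
    · intro u _
      rw [hd]
      simp only [_root_.zero_apply, abs_zero, zero_mul]
      positivity

theorem Fs_LD_pos (hN : Num n r₀ ρ₁ ρ η κ) (hB : ∀ i, Box (B i)) (hF : Continuous F)
    (hc : ∀ i, Rad (c i)) (hA : ∀ i, BLip F ρ₁ (B i) (a i)) {x : X} (hx : 0 < ps B x)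
    {δ : ℝ} (hδ : 0 < δ) (hcd : ∀ i z, c i z = δ * rr (ps B) (B i) z / a i)
    (hβ : ∀ i, 8 * ρ ^ 2 * β ≤ κ ∧ ∀ y z, |c i y - c i z| ≤ β * ‖y - z‖)
    (hε : ∀ i j, ε * a i ≤ η * a j) (hCα : ∀ j, δ * ps B x / a j ≤ 1 / 4)
    (htr : ∀ i j, ∀ y z : E n, ‖y‖ ≤ 1 → ‖z‖ ≤ 1 → B j y = B i z → ∀ v : E n,
      ‖v‖ ≤ δ * ps B x / a j →
      ‖tr (B j) (B i) (y + v)‖ ≤ 2 ∧ B i (tr (B j) (B i) (y + v)) = B j (y + v) ∧
      ‖tr (B j) (B i) (y + v) - z - fderiv ℝ (tr (B j) (B i)) y v‖ ≤ ε * ‖v‖)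
    (hCχ : ∀ i j, ∀ y, ‖y‖ ≤ 1 → ‖fderiv ℝ (fun y => wt B i (B j y)) y‖ ≤ Cχ)
    (hfin : ∀ j, N * (Cχ * ρ₁) * (2 * ρ₁ * (δ * ps B x)) < a j * κ / (4 * ρ)) :
    LD n (Fs K B F c) x := by
  obtain ⟨C, hCd⟩ : ∃ C, C = δ * ps B x := ⟨_, rfl⟩
  rw [← hCd] at hCα htr hfin
  have hC : 0 < C := by rw [hCd]; exact mul_pos hδ hx
  have hsum := wt_sum_one B hB hx
  obtain ⟨j, hj⟩ : ∃ j, wt B j x ≠ 0 := by
    by_contra hcon
    push Not at hcon
    simp [hcon] at hsum
  have hxj : x ∈ B j '' closedBall 0 (3 / 4) := by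
    by_contra hcon
    exact hj (wt_zero B hB hcon)
  obtain ⟨y, hy, rfl⟩ := hxj
  rw [mem_closedBall_zero_iff] at hy
  have hjy := ((hB j).ld y (by rw [mem_closedBall_zero_iff]; linarith)).continuousAt
  have hcz : ∀ i z, ‖z‖ ≤ 3 / 4 → 0 < ps B (B i z) → 0 < c i z := by
    intro i z hz hp
    rw [hcd, rr_one _ _ hz]
    exact div_pos (mul_pos hδ hp) (hA i).pos
  have hpos : ∀ᶠ w in 𝓝 (B j y), 0 < ps B w :=
    (ps_smooth B hB (B j y)).continuousAt.eventually_const_lt hx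
  have hpos' : ∀ᶠ w in 𝓝 y, 0 < ps B (B j w) := hjy.eventually hpos
  have hlt2 : ∀ᶠ w in 𝓝 y, ‖w‖ < 2 := continuous_norm.continuousAt.eventually_lt_const
    (by linarith)
  apply LD_of_box (hB j) (by linarith)
  have hterm := fun i => term K hN hB hF hc hA (i := i) (j := j) (hβ i).2 (hβ i).1 (hε i j) hy hC
    (fun z hz hzy => by rw [hcd, rr_one _ _ hz, hzy, hCd]) (hCα j)
    (fun z hz hzy => htr i j y z (by linarith) hz hzy) (hCχ i j y (by linarith))
  choose L hL1 hL2 hL3 using hterm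
  have hsumev : (fun w => Fs K B F c (B j w)) =ᶠ[𝓝 y] fun w =>
      ∑ i, wt B i (B j w) • Mi K (B i) F (c i) (B j w) := by
    filter_upwards [hpos'] with w hw
    exact Fs_eq_sum K B F c (wt_sum_one B hB hw)
  have hD : HasFDerivAt (fun w => Fs K B F c (B j w)) (∑ i, (wt B i (B j y) • L i +
      (fderiv ℝ (fun y => wt B i (B j y)) y).smulRight (Mi K (B i) F (c i) (B j y)))) y :=
    (HasFDerivAt.fun_sum fun i _ => hL1 i).congr_of_eventuallyEq hsumev
  have hwsum : ∑ i, fderiv ℝ (fun y => wt B i (B j y)) y = 0 := by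
    have h1 : HasFDerivAt (fun y => ∑ i, wt B i (B j y))
        (∑ i, fderiv ℝ (fun y => wt B i (B j y)) y) y :=
      HasFDerivAt.fun_sum fun i _ =>
        ((smooth_in_box (hB j) (by linarith) (wt_smooth B hB i _)).differentiableAt
          (by simp)).hasFDerivAt
    have h2 : (fun y => ∑ i, wt B i (B j y)) =ᶠ[𝓝 y] fun _ => (1 : ℝ) := by
      filter_upwards [hpos'] with w hw
      exact wt_sum_one B hB hw
    exact h1.unique ((hasFDerivAt_const (1 : ℝ) y).congr_of_eventuallyEq h2)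
  apply LD_of_pos
  · -- smoothness
    filter_upwards [hpos'.eventually_nhds, hlt2] with w hw hw2
    have hw0 : 0 < ps B (B j w) := hw.self_of_nhds
    have h1 : ∀ i, ContDiffAt ℝ ∞ (fun w => wt B i (B j w) • Mi K (B i) F (c i) (B j w)) w := by
      intro i
      have hjw := (hB j).ld w (by rw [mem_closedBall_zero_iff]; exact hw2.le)
      by_cases hm : B j w ∈ B i '' closedBall 0 (3 / 4)
      · obtain ⟨z, hz, hzw⟩ := hm
        rw [mem_closedBall_zero_iff] at hz
        have h2 : Sm n (Mi K (B i) F (c i)) (B j w) := by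
          rw [← hzw]
          exact Mi_smooth_pos K (hB i) hF (hc i) (hcz i z hz (by rw [hzw]; exact hw0))
        have h3 : ContDiffAt ℝ ∞ (fun w => Mi K (B i) F (c i) (B j w)) w :=
          contMDiffAt_iff_contDiffAt.1 (h2.comp w hjw.contMDiffAt)
        exact (smooth_in_box (hB j) hw2.le (wt_smooth B hB i _)).smul h3
      · have h1 : ∀ᶠ x in 𝓝 (B j w), x ∉ B i '' closedBall 0 (3 / 4) :=
          (box_isCompact (hB i) (by norm_num)).isClosed.isOpen_compl.mem_nhds hm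
        refine (contDiffAt_const (c := (0 : E n))).congr_of_eventuallyEq ?_
        filter_upwards [hjw.continuousAt.eventually h1] with v hv
        rw [wt_zero B hB hv, zero_smul]
    have h2 : ContDiffAt ℝ ∞ (fun w => ∑ i, wt B i (B j w) • Mi K (B i) F (c i) (B j w)) w :=
      ContDiffAt.sum fun i _ => h1 i
    refine h2.congr_of_eventuallyEq ?_
    filter_upwards [hw] with v hv
    exact Fs_eq_sum K B F c (wt_sum_one B hB hv)
  · -- the derivative
    intro u hu h0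
    rw [hD.fderiv] at h0
    obtain ⟨e, he⟩ : ∃ e, e = F (B j (y + (C / a j) • u)) - F (B j (y - (C / a j) • u)) := ⟨_, rfl⟩
    have hCa0 : 0 < C / a j := div_pos hC (hA j).pos
    have hen : ‖e‖ ≤ 2 * ρ₁ * C := by
      have hv : ‖(C / a j) • u‖ = C / a j := by
        rw [norm_smul, hu, mul_one, Real.norm_of_nonneg hCa0.le]
      have hm : ∀ s : E n, ‖s‖ = C / a j → y + s ∈ closedBall (0 : E n) 2 := by
        intro s hs
        rw [mem_closedBall_zero_iff]
        have h1 := norm_add_le y s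
        have h2 := hCα j
        linarith
      have h1 := (hA j).up (y + (C / a j) • u) (hm _ hv) (y - (C / a j) • u)
        (by rw [sub_eq_add_neg]; exact hm _ (by rw [norm_neg]; exact hv))
      have h2 : y + (C / a j) • u - (y - (C / a j) • u) = (2 : ℝ) • ((C / a j) • u) := by
        rw [two_smul]
        abel
      rw [h2, norm_smul, hv, ← he] at h1
      refine h1.trans (le_of_eq ?_)
      have := (hA j).pos.ne'
      rw [Real.norm_of_nonneg (by norm_num)]
      field_simp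
    have h1 : ∑ i, (wt B i (B j y) • L i u + (fderiv ℝ (fun y => wt B i (B j y)) y u) •
        (Mi K (B i) F (c i) (B j y) - F (B j y))) = 0 := by
      have h2 : ∑ i, (wt B i (B j y) • L i u + (fderiv ℝ (fun y => wt B i (B j y)) y u) •
          Mi K (B i) F (c i) (B j y)) = 0 := by
        rw [← h0]
        simp [_root_.sum_apply]
      have h3 : ∑ i, (fderiv ℝ (fun y => wt B i (B j y)) y u) • F (B j y) = 0 := by
        rw [← Finset.sum_smul]
        have h4 : ∑ i, fderiv ℝ (fun y => wt B i (B j y)) y u = 0 := by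
          have h5 := congrArg (fun T : E n →L[ℝ] ℝ => T u) hwsum
          simpa [_root_.sum_apply] using h5
        rw [h4, zero_smul]
      have h6 : ∀ i, (wt B i (B j y) • L i u + (fderiv ℝ (fun y => wt B i (B j y)) y u) •
        (Mi K (B i) F (c i) (B j y) - F (B j y))) = (wt B i (B j y) • L i u +
          (fderiv ℝ (fun y => wt B i (B j y)) y u) • Mi K (B i) F (c i) (B j y)) -
          (fderiv ℝ (fun y => wt B i (B j y)) y u) • F (B j y) := by
        intro i
        rw [smul_sub]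
        abel
      simp only [h6]
      rw [Finset.sum_sub_distrib, h2, h3, sub_zero]
    have h2 : inner ℝ (∑ i, (wt B i (B j y) • L i u + (fderiv ℝ (fun y => wt B i (B j y)) y u) •
        (Mi K (B i) F (c i) (B j y) - F (B j y)))) e = (0 : ℝ) := by
      rw [h1, inner_zero_left]
    rw [sum_inner] at h2
    have h3 : ∀ i, wt B i (B j y) * (a j * C * κ / (4 * ρ)) - Cχ * (ρ₁ * C) * (2 * ρ₁ * C) ≤
        inner ℝ (wt B i (B j y) • L i u + (fderiv ℝ (fun y => wt B i (B j y)) y u) •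
          (Mi K (B i) F (c i) (B j y) - F (B j y))) e := by
      intro i
      rw [inner_add_left, inner_smul_left, inner_smul_left, conj_trivial, conj_trivial]
      have h4 := hL2 i u hu
      rw [← he] at h4
      have h5 := hL3 i u hu
      have h6 : |(fderiv ℝ (fun y => wt B i (B j y)) y u) *
          inner ℝ (Mi K (B i) F (c i) (B j y) - F (B j y)) e| ≤ Cχ * (ρ₁ * C) * (2 * ρ₁ * C) := by
        rw [abs_mul]
        calc _ ≤ |fderiv ℝ (fun y => wt B i (B j y)) y u| *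
              (‖Mi K (B i) F (c i) (B j y) - F (B j y)‖ * ‖e‖) :=
              mul_le_mul_of_nonneg_left (abs_real_inner_le_norm _ _) (abs_nonneg _)
          _ = (|fderiv ℝ (fun y => wt B i (B j y)) y u| *
              ‖Mi K (B i) F (c i) (B j y) - F (B j y)‖) * ‖e‖ := by ring
          _ ≤ Cχ * (ρ₁ * C) * (2 * ρ₁ * C) := by
              apply mul_le_mul h5 hen (norm_nonneg _)
              exact le_trans (by positivity) h5
      have h7 := (abs_le.1 h6).1
      linarith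
    have h8 := Finset.sum_le_sum fun (i : Fin N) (_ : i ∈ Finset.univ) => h3 i
    rw [h2, Finset.sum_sub_distrib, ← Finset.sum_mul, hsum, one_mul, Finset.sum_const,
      Finset.card_univ, Fintype.card_fin, nsmul_eq_mul] at h8
    have h9 := mul_lt_mul_of_pos_left (hfin j) hC
    have h10 : C * (N * (Cχ * ρ₁) * (2 * ρ₁ * C)) = N * (Cχ * (ρ₁ * C) * (2 * ρ₁ * C)) := by ring
    have h11 : C * (a j * κ / (4 * ρ)) = a j * C * κ / (4 * ρ) := by ring
    rw [h10, h11] at h9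
    linarith

end Pool.Agent.U211.BL
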