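import Pool.Agent.U211.BL.Mol

/-!
# The derivative of the mollification of a bi-Lipschitz map
-/

set_option autoImplicit false

open Set Filter Topology Metric Function MeasureTheory
open scoped Manifold ContDiff Convolution

noncomputable section

namespace Pool.Agent.U211.BL

open Pool.Agent.Y522

variable {n : ℕ} {r₀ : ℝ} (K : Ker n r₀)

theorem gk_smooth {r : ℝ} : ContDiff ℝ ∞ (gk K r) := by
  unfold gk
  apply contDiff_const.mul
  apply K.smooth.comp
  fun_prop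

theorem gk_supp {r : ℝ} (hr : 0 < r) : HasCompactSupport (gk K r) := by
  apply HasCompactSupport.of_support_subset_isCompact (isCompact_closedBall (0 : E n) r)
  intro s hs
  rw [mem_closedBall_zero_iff]
  by_contra h1
  apply hs
  show gk K r s = 0
  unfold gk
  rw [K.zero, mul_zero]
  rw [norm_smul, norm_inv, Real.norm_of_nonneg hr.le, inv_mul_eq_div, le_div_iff₀ hr]
  linarith

theorem gk_fderiv {r : ℝ} (x w : E n) : fderiv ℝ (gk K r) x w =
    -((r ^ n)⁻¹ * (K.g (r⁻¹ • x) * inner ℝ (r⁻¹ • x) (r⁻¹ • w))) := by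
  have h1 : HasFDerivAt K.k (fderiv ℝ K.k (r⁻¹ • x)) (r⁻¹ • x) :=
    (K.smooth.differentiable (by simp)).differentiableAt.hasFDerivAt
  have h2 : HasFDerivAt (fun y : E n => r⁻¹ • y) (r⁻¹ • ContinuousLinearMap.id ℝ (E n)) x :=
    (hasFDerivAt_id x).const_smul r⁻¹
  have h3 := (h1.comp x h2).const_mul (r ^ n)⁻¹
  have h4 : HasFDerivAt (gk K r) ((r ^ n)⁻¹ • ((fderiv ℝ K.k (r⁻¹ • x)).comp
      (r⁻¹ • ContinuousLinearMap.id ℝ (E n)))) x := h3
  rw [h4.fderiv]
  simp only [_root_.smul_apply, ContinuousLinearMap.comp_apply, smul_eq_mul,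
    ContinuousLinearMap.id_apply]
  rw [K.der]
  ring

/-- the derivative of the mollification with constant radius -/
theorem moll_hasFDerivAt {G : E n → E n} (hG : LocallyIntegrable G) {r : ℝ} (hr : 0 < r) (z : E n) :
    ∃ D : E n →L[ℝ] E n, HasFDerivAt (fun y => ∫ s, K.k s • G (y + r • s)) D z ∧
      ∀ w, D w = r⁻¹ • ∫ s, (K.g s * inner ℝ s w) • G (z + r • s) := by
  have h1 : (fun y => ∫ s, K.k s • G (y + r • s)) = (G ⋆[LL n, volume] gk K r) := by
    funext y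
    exact moll_conv K G y hr
  have hg1 : ContDiff ℝ 1 (gk K r) := (gk_smooth K).of_le (by simp)
  have h2 := (gk_supp K hr).hasFDerivAt_convolution_right (LL n) (μ := volume) hG hg1 z
  refine ⟨_, by rw [h1]; exact h2, fun w => ?_⟩
  have hex : ConvolutionExistsAt G (fderiv ℝ (gk K r)) z ((LL n).precompR (E n)) volume :=
    ((gk_supp K hr).fderiv ℝ).convolutionExists_right ((LL n).precompR (E n)) hG
      (hg1.continuous_fderiv one_ne_zero) z
  unfold convolution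
  rw [ContinuousLinearMap.integral_apply hex]
  simp only [ContinuousLinearMap.precompR_apply, ContinuousLinearMap.compL_apply,
    ContinuousLinearMap.comp_apply, LL_apply]
  have h3 : ∫ t, (fderiv ℝ (gk K r) (z - t) w) • G t =
      ∫ t, (fderiv ℝ (gk K r) (-t) w) • G (z + t) := by
    rw [← integral_add_left_eq_self (fun t => (fderiv ℝ (gk K r) (z - t) w) • G t) z]
    congr 1
    funext t
    rw [sub_add_cancel_left]
  rw [h3]
  have h4 := Measure.integral_comp_smul_of_nonneg (volume : Measure (E n))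
    (fun t => (fderiv ℝ (gk K r) (-t) w) • G (z + t)) r (hR := hr.le)
  rw [finrank_euclideanSpace, Fintype.card_fin] at h4
  have h5 : ∀ s : E n, (fderiv ℝ (gk K r) (-(r • s)) w) • G (z + r • s) =
      (r ^ n)⁻¹ • (r⁻¹ • ((K.g s * inner ℝ s w) • G (z + r • s))) := by
    intro s
    rw [gk_fderiv, smul_smul, smul_smul]
    congr 1
    rw [smul_neg, smul_smul, inv_mul_cancel₀ hr.ne', one_smul, inner_neg_left, inner_smul_right,
      K.grad (-s) s (norm_neg s)]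
    ring
  simp only [h5] at h4
  rw [integral_smul, integral_smul] at h4
  exact (smul_right_injective _ (inv_ne_zero (pow_ne_zero n hr.ne')) h4).symm

/-- polarization -/
theorem polar (a b c d : E n) : 2 * inner ℝ (a - b) (c - d) =
    ‖a - d‖ ^ 2 + ‖b - c‖ ^ 2 - ‖a - c‖ ^ 2 - ‖b - d‖ ^ 2 := by
  simp only [← real_inner_self_eq_norm_sq, inner_sub_left, inner_sub_right]
  rw [real_inner_comm d a, real_inner_comm c b, real_inner_comm c a, real_inner_comm d b]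
  ring

/-- the reflection in the hyperplane orthogonal to `w` -/
def rf (w s : E n) : E n := s - (2 * inner ℝ s w) • w

theorem rf_inner {w : E n} (hw : ‖w‖ = 1) (s : E n) : inner ℝ (rf w s) w = -inner ℝ s w := by
  unfold rf
  rw [inner_sub_left, inner_smul_left, real_inner_self_eq_norm_sq, hw]
  simp
  ring

theorem rf_rf {w : E n} (hw : ‖w‖ = 1) (s : E n) : rf w (rf w s) = s := by
  have h := rf_inner hw s
  rw [rf, h]
  unfold rf
  rw [mul_neg, neg_smul]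
  abel

theorem rf_norm_sq {w : E n} (hw : ‖w‖ = 1) (s : E n) : ‖rf w s‖ ^ 2 = ‖s‖ ^ 2 := by
  unfold rf
  rw [@norm_sub_sq_real, inner_smul_right, norm_smul, hw, Real.norm_eq_abs, mul_one, sq_abs]
  ring

theorem rf_norm {w : E n} (hw : ‖w‖ = 1) (s : E n) : ‖rf w s‖ = ‖s‖ := by
  have h := rf_norm_sq hw s
  exact (pow_left_inj₀ (norm_nonneg _) (norm_nonneg _) (by norm_num)).1 h

theorem rf_add {w : E n} (s t : E n) : rf w (s + t) = rf w s + rf w t := by
  unfold rf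
  rw [inner_add_left, mul_add, add_smul]
  abel

theorem rf_smul_w {w : E n} (hw : ‖w‖ = 1) (T : ℝ) : rf w (T • w) = -(T • w) := by
  unfold rf
  rw [inner_smul_left, real_inner_self_eq_norm_sq, hw]
  simp only [conj_trivial, one_pow, mul_one]
  rw [mul_smul, two_smul]
  abel

/-- the reflection as a linear isometry -/
def rfE (w : E n) (hw : ‖w‖ = 1) : E n ≃ₗᵢ[ℝ] E n where
  toFun := rf w
  invFun := rf w
  left_inv := rf_rf hw
  right_inv := rf_rf hw
  map_add' := rf_add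
  map_smul' := by
    intro c s
    simp only [rf, inner_smul_left, conj_trivial, RingHom.id_apply, smul_sub, smul_smul]
    congr 2
    ring
  norm_map' := rf_norm hw

theorem integral_rf {V : Type} [NormedAddCommGroup V] [NormedSpace ℝ V] {w : E n} (hw : ‖w‖ = 1)
    (f : E n → V) : ∫ s, f (rf w s) = ∫ s, f s :=
  (rfE w hw).measurePreserving.integral_comp (rfE w hw).toHomeomorph.measurableEmbedding f

theorem sq_lower {x y η : ℝ} (hy : 0 ≤ y) (hx : 0 ≤ x) (hη : 0 ≤ η) (h : x - η ≤ y) :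
    x ^ 2 - 2 * η * x ≤ y ^ 2 := by
  rcases le_or_gt η x with h1 | h1
  · nlinarith
  · nlinarith

section est

variable {G : E n → E n} {z w qp qm : E n} {a ρ h T η : ℝ} {S : Set (E n)}

/-- the pointwise estimate in the half space -/
theorem point_est (ha : 0 < a) (hρ : 1 ≤ ρ) (hh : 0 < h) (hw : ‖w‖ = 1)
    (hT : 0 ≤ T) (hT2 : T ≤ 2) (hη0 : 0 ≤ η) (hη1 : η ≤ 1) (hS : closedBall z h ⊆ S)
    (hqp : qp ∈ S) (hqm : qm ∈ S) (hlow : ∀ p ∈ S, ∀ q ∈ S, a * ‖p - q‖ ≤ ‖G p - G q‖)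
    (hup : ∀ p ∈ S, ∀ q ∈ S, ‖G p - G q‖ ≤ ρ * (a * ‖p - q‖))
    (hqp' : ‖qp - (z + (h * T) • w)‖ ≤ η * h) (hqm' : ‖qm - (z - (h * T) • w)‖ ≤ η * h)
    {s : E n} (hs : ‖s‖ ≤ 1) :
    a ^ 2 * h ^ 2 * (2 * T * (1 + ρ ^ 2) * inner ℝ s w - ((ρ ^ 2 - 1) * (1 + T ^ 2) +
      13 * ρ ^ 2 * η)) ≤ inner ℝ (G (z + h • s) - G (z + h • rf w s)) (G qp - G qm) := by
  have hmem : ∀ t : E n, ‖t‖ ≤ 1 → z + h • t ∈ S := by
    intro t ht
    apply hS
    rw [mem_closedBall, dist_eq_norm, add_sub_cancel_left, norm_smul, Real.norm_of_nonneg hh.le]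
    nlinarith
  have hp := hmem s hs
  have hp' := hmem (rf w s) (by rw [rf_norm hw]; exact hs)
  -- the two basic distances
  obtain ⟨x, hx⟩ : ∃ x : ℝ, x = ‖s + T • w‖ := ⟨_, rfl⟩
  obtain ⟨y, hy⟩ : ∃ y : ℝ, y = ‖s - T • w‖ := ⟨_, rfl⟩
  have hx0 : 0 ≤ x := hx ▸ norm_nonneg _
  have hy0 : 0 ≤ y := hy ▸ norm_nonneg _
  have hTw : ‖T • w‖ = T := by rw [norm_smul, hw, mul_one, Real.norm_of_nonneg hT]
  have hx3 : x ≤ 3 := by
    rw [hx]
    have := norm_add_le s (T • w)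
    linarith
  have hy3 : y ≤ 3 := by
    rw [hy]
    have := norm_sub_le s (T • w)
    linarith
  have hx2 : x ^ 2 = ‖s‖ ^ 2 + T ^ 2 + 2 * T * inner ℝ s w := by
    rw [hx, @norm_add_sq_real, hTw, inner_smul_right]
    ring
  have hy2 : y ^ 2 = ‖s‖ ^ 2 + T ^ 2 - 2 * T * inner ℝ s w := by
    rw [hy, @norm_sub_sq_real, hTw, inner_smul_right]
    ring
  have hx' : x = ‖rf w s - T • w‖ := by
    have h1 : rf w s - T • w = rf w (s + T • w) := by
      rw [rf_add, rf_smul_w hw]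
      abel
    rw [h1, rf_norm hw, hx]
  have hy' : y = ‖rf w s + T • w‖ := by
    have h1 : rf w s + T • w = rf w (s - T • w) := by
      rw [sub_eq_add_neg, rf_add, ← neg_smul, rf_smul_w hw, neg_smul, neg_neg]
    rw [h1, rf_norm hw, hy]
  -- comparison
  have hcmp : ∀ (t v q : E n) (ε : ℝ), ‖q - (z + (ε * h * T) • w)‖ ≤ η * h → v = t - (ε * T) • w →
      h * ‖v‖ - η * h ≤ ‖z + h • t - q‖ ∧ ‖z + h • t - q‖ ≤ h * ‖v‖ + η * h := by
    intro t v q ε hq hv
    have h1 : z + h • t - q = h • v - (q - (z + (ε * h * T) • w)) := by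
      rw [hv, smul_sub, smul_smul]
      have : h * (ε * T) = ε * h * T := by ring
      rw [this]
      abel
    have h2 : ‖h • v‖ = h * ‖v‖ := by rw [norm_smul, Real.norm_of_nonneg hh.le]
    constructor
    · rw [h1]
      have := norm_sub_norm_le (h • v) (q - (z + (ε * h * T) • w))
      linarith
    · rw [h1]
      have := norm_sub_le (h • v) (q - (z + (ε * h * T) • w))
      linarith
  have hqp1 : ‖qp - (z + (1 * h * T) • w)‖ ≤ η * h := by rw [one_mul]; exact hqp'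
  have hqm1 : ‖qm - (z + ((-1) * h * T) • w)‖ ≤ η * h := by
    have : z + ((-1 : ℝ) * h * T) • w = z - (h * T) • w := by
      rw [neg_one_mul, neg_mul, neg_smul, sub_eq_add_neg]
    rw [this]
    exact hqm'
  have c1 := hcmp s (s + T • w) qm (-1) hqm1 (by rw [neg_one_mul, neg_smul, sub_neg_eq_add])
  have c2 := hcmp (rf w s) (rf w s - T • w) qp 1 hqp1 (by rw [one_mul])
  have c3 := hcmp s (s - T • w) qp 1 hqp1 (by rw [one_mul])
  have c4 := hcmp (rf w s) (rf w s + T • w) qm (-1) hqm1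
    (by rw [neg_one_mul, neg_smul, sub_neg_eq_add])
  rw [← hx] at c1
  rw [← hx'] at c2
  rw [← hy] at c3
  rw [← hy'] at c4
  have lowb : ∀ p q : E n, p ∈ S → q ∈ S → h * x - η * h ≤ ‖p - q‖ →
      a ^ 2 * h ^ 2 * (x ^ 2 - 6 * η) ≤ ‖G p - G q‖ ^ 2 := by
    intro p q hp hq hd
    have h1 := hlow p hp q hq
    have h2 : x - η ≤ ‖G p - G q‖ / (a * h) := by
      rw [le_div_iff₀ (by positivity)]
      calc (x - η) * (a * h) = a * (h * x - η * h) := by ring
        _ ≤ a * ‖p - q‖ := mul_le_mul_of_nonneg_left hd ha.le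
        _ ≤ _ := h1
    have h3 := sq_lower (by positivity) hx0 hη0 h2
    have h4 : (‖G p - G q‖ / (a * h)) ^ 2 = ‖G p - G q‖ ^ 2 / (a ^ 2 * h ^ 2) := by
      rw [div_pow, mul_pow]
    rw [h4, le_div_iff₀ (by positivity)] at h3
    have h5 : x ^ 2 - 6 * η ≤ x ^ 2 - 2 * η * x := by nlinarith
    have h6 := mul_le_mul_of_nonneg_right h5 (by positivity : 0 ≤ a ^ 2 * h ^ 2)
    linarith
  have upb : ∀ p q : E n, p ∈ S → q ∈ S → ‖p - q‖ ≤ h * y + η * h →
      ‖G p - G q‖ ^ 2 ≤ a ^ 2 * h ^ 2 * (ρ ^ 2 * (y ^ 2 + 7 * η)) := by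
    intro p q hp hq hd
    have h1 := hup p hp q hq
    have h2 : ‖G p - G q‖ ≤ a * h * (ρ * (y + η)) := by
      calc ‖G p - G q‖ ≤ ρ * (a * ‖p - q‖) := h1
        _ ≤ ρ * (a * (h * y + η * h)) := by gcongr
        _ = _ := by ring
    calc ‖G p - G q‖ ^ 2 ≤ (a * h * (ρ * (y + η))) ^ 2 := by gcongr
      _ = a ^ 2 * h ^ 2 * (ρ ^ 2 * (y + η) ^ 2) := by ring
      _ ≤ a ^ 2 * h ^ 2 * (ρ ^ 2 * (y ^ 2 + 7 * η)) := by
          have : (y + η) ^ 2 ≤ y ^ 2 + 7 * η := by nlinarith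
          gcongr
  have e1 := lowb _ _ hp hqm c1.1
  have e2 := lowb _ _ hp' hqp c2.1
  have e3 := upb _ _ hp hqp c3.2
  have e4 := upb _ _ hp' hqm c4.2
  have h7 := polar (G (z + h • s)) (G (z + h • rf w s)) (G qp) (G qm)
  have hs2 : ‖s‖ ^ 2 ≤ 1 := by nlinarith [norm_nonneg s]
  have hfin : 2 * T * (1 + ρ ^ 2) * inner ℝ s w - ((ρ ^ 2 - 1) * (1 + T ^ 2) + 13 * ρ ^ 2 * η) ≤
      (x ^ 2 - 6 * η) - ρ ^ 2 * (y ^ 2 + 7 * η) := by
    rw [hx2, hy2]
    have h8 : 0 ≤ ρ ^ 2 - 1 := by nlinarith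
    nlinarith [mul_nonneg h8 (sub_nonneg.2 hs2), mul_nonneg h8 hη0]
  have h9 := mul_le_mul_of_nonneg_left hfin (by positivity : 0 ≤ a ^ 2 * h ^ 2)
  refine h9.trans ?_
  have h10 : a ^ 2 * h ^ 2 * (x ^ 2 - 6 * η - ρ ^ 2 * (y ^ 2 + 7 * η)) =
      a ^ 2 * h ^ 2 * (x ^ 2 - 6 * η) - a ^ 2 * h ^ 2 * (ρ ^ 2 * (y ^ 2 + 7 * η)) := by ring
  rw [h10]
  linarith

theorem main_est (hr0 : 0 < r₀) (ha : 0 < a) (hρ : 1 ≤ ρ) (hh : 0 < h) (hw : ‖w‖ = 1)
    (hT : 0 ≤ T) (hT2 : T ≤ 2) (hη0 : 0 ≤ η) (hη1 : η ≤ 1) (hS : closedBall z h ⊆ S)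
    (hGc : ContinuousOn G S)
    (hqp : qp ∈ S) (hqm : qm ∈ S) (hlow : ∀ p ∈ S, ∀ q ∈ S, a * ‖p - q‖ ≤ ‖G p - G q‖)
    (hup : ∀ p ∈ S, ∀ q ∈ S, ‖G p - G q‖ ≤ ρ * (a * ‖p - q‖))
    (hqp' : ‖qp - (z + (h * T) • w)‖ ≤ η * h) (hqm' : ‖qm - (z - (h * T) • w)‖ ≤ η * h) :
    a ^ 2 * h ^ 2 / 2 * (2 * T * (1 + ρ ^ 2) - ((ρ ^ 2 - 1) * (1 + T ^ 2) + 13 * ρ ^ 2 * η) *
      (Real.sqrt n / r₀)) ≤ ∫ s, K.g s * (inner ℝ s w * inner ℝ (G (z + h • s)) (G qp - G qm)) := by
  obtain ⟨e, he⟩ : ∃ e, e = G qp - G qm := ⟨_, rfl⟩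
  rw [← he]
  obtain ⟨B, hB⟩ : ∃ B : ℝ, B = (ρ ^ 2 - 1) * (1 + T ^ 2) + 13 * ρ ^ 2 * η := ⟨_, rfl⟩
  rw [← hB]
  have hB0 : 0 ≤ B := by
    rw [hB]
    have : 0 ≤ ρ ^ 2 - 1 := by nlinarith
    positivity
  have hcont : ContinuousOn (fun s => G (z + h • s)) (closedBall (0 : E n) 1) := by
    apply hGc.comp (by fun_prop)
    intro s hs
    apply hS
    rw [mem_closedBall_zero_iff] at hs
    rw [mem_closedBall, dist_eq_norm, add_sub_cancel_left, norm_smul, Real.norm_of_nonneg hh.le]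
    nlinarith
  have hrfc : Continuous (rf w) := (rfE w hw).continuous
  have hcont' : ContinuousOn (fun s => G (z + h • rf w s)) (closedBall (0 : E n) 1) := by
    apply hcont.comp hrfc.continuousOn
    intro s hs
    rw [mem_closedBall_zero_iff] at hs ⊢
    rwa [rf_norm hw]
  obtain ⟨I, hI⟩ : ∃ I : ℝ, I = ∫ s, K.g s * (inner ℝ s w * inner ℝ (G (z + h • s)) e) := ⟨_, rfl⟩
  have hI1 : Integrable fun s => K.g s * (inner ℝ s w * inner ℝ (G (z + h • s)) e) := by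
    apply K.g_mul_integrable
    apply ContinuousOn.mul (by fun_prop)
    exact hcont.inner continuousOn_const
  have hI2 : Integrable fun s => K.g s * (inner ℝ s w * inner ℝ (G (z + h • rf w s)) e) := by
    apply K.g_mul_integrable
    apply ContinuousOn.mul (by fun_prop)
    exact hcont'.inner continuousOn_const
  have hrefl : ∫ s, K.g s * (inner ℝ s w * inner ℝ (G (z + h • rf w s)) e) = -I := by
    rw [hI, ← integral_rf hw, ← integral_neg]
    congr 1
    funext s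
    rw [K.grad (rf w s) s (rf_norm hw s), rf_inner hw, rf_rf hw]
    ring
  have h2I : 2 * I = ∫ s, K.g s * (inner ℝ s w *
      inner ℝ (G (z + h • s) - G (z + h • rf w s)) e) := by
    have h1 : ∀ s, K.g s * (inner ℝ s w * inner ℝ (G (z + h • s) - G (z + h • rf w s)) e) =
        K.g s * (inner ℝ s w * inner ℝ (G (z + h • s)) e) -
          K.g s * (inner ℝ s w * inner ℝ (G (z + h • rf w s)) e) := by
      intro s
      rw [inner_sub_left]
      ring
    simp only [h1]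
    rw [integral_sub hI1 hI2, hrefl, ← hI]
    ring
  have hpt : ∀ s, a ^ 2 * h ^ 2 * (2 * T * (1 + ρ ^ 2) * (K.g s * (inner ℝ s w) ^ 2) -
      B * (K.g s * |inner ℝ s w|)) ≤ K.g s * (inner ℝ s w *
      inner ℝ (G (z + h • s) - G (z + h • rf w s)) e) := by
    intro s
    by_cases hg : K.g s = 0
    · rw [hg]
      simp
    have hs : ‖s‖ ≤ 1 := by
      by_contra hc
      exact hg (K.gzero s (not_le.1 hc))
    have h1 : a ^ 2 * h ^ 2 * (2 * T * (1 + ρ ^ 2) * (K.g s * (inner ℝ s w) ^ 2) -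
        B * (K.g s * |inner ℝ s w|)) = K.g s * (|inner ℝ s w| * (a ^ 2 * h ^ 2 *
          (2 * T * (1 + ρ ^ 2) * |inner ℝ s w| - B))) := by
      have : (inner ℝ s w : ℝ) ^ 2 = |inner ℝ s w| ^ 2 := (sq_abs _).symm
      rw [this]
      ring
    rw [h1]
    apply mul_le_mul_of_nonneg_left _ (K.gnonneg s)
    rcases le_total 0 (inner ℝ s w : ℝ) with hσ | hσ
    · rw [abs_of_nonneg hσ]
      apply mul_le_mul_of_nonneg_left _ hσ
      rw [hB, he]
      exact point_est ha hρ hh hw hT hT2 hη0 hη1 hS hqp hqm hlow hup hqp' hqm' hs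
    · rw [abs_of_nonpos hσ]
      have h3 : (inner ℝ s w : ℝ) * inner ℝ (G (z + h • s) - G (z + h • rf w s)) e =
          (-inner ℝ s w) * inner ℝ (G (z + h • rf w s) - G (z + h • rf w (rf w s))) e := by
        rw [rf_rf hw, ← neg_sub (G (z + h • s)) (G (z + h • rf w s)), inner_neg_left]
        ring
      rw [h3]
      apply mul_le_mul_of_nonneg_left _ (by linarith)
      rw [hB, he, ← rf_inner hw]
      exact point_est ha hρ hh hw hT hT2 hη0 hη1 hS hqp hqm hlow hup hqp' hqm'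
        (by rw [rf_norm hw]; exact hs)
  have hJ1 : Integrable fun s => K.g s * (inner ℝ s w : ℝ) ^ 2 := K.g_mul_integrable (by fun_prop)
  have hJ2 : Integrable fun s => K.g s * |(inner ℝ s w : ℝ)| := K.g_mul_integrable (by fun_prop)
  have hJ3 : Integrable fun s => K.g s * (inner ℝ s w *
      inner ℝ (G (z + h • s) - G (z + h • rf w s)) e) := by
    apply K.g_mul_integrable
    apply ContinuousOn.mul (by fun_prop)
    exact (hcont.sub hcont').inner continuousOn_const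
  have hle := integral_mono (((hJ1.const_mul (2 * T * (1 + ρ ^ 2))).sub (hJ2.const_mul B)).const_mul
    (a ^ 2 * h ^ 2)) hJ3 hpt
  rw [← h2I] at hle
  have hcomp : ∫ s, a ^ 2 * h ^ 2 * (2 * T * (1 + ρ ^ 2) * (K.g s * (inner ℝ s w) ^ 2) -
      B * (K.g s * |inner ℝ s w|)) = a ^ 2 * h ^ 2 * (2 * T * (1 + ρ ^ 2) -
        B * ∫ s, K.g s * |inner ℝ s w|) := by
    rw [integral_const_mul, integral_sub (hJ1.const_mul _) (hJ2.const_mul _), integral_const_mul,
      integral_const_mul, K.int_sq, hw, one_pow, mul_one]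
  have hR := K.int_abs_le hr0 hw
  have h5 : a ^ 2 * h ^ 2 * (2 * T * (1 + ρ ^ 2) - B * (Real.sqrt n / r₀)) ≤
      a ^ 2 * h ^ 2 * (2 * T * (1 + ρ ^ 2) - B * ∫ s, K.g s * |inner ℝ s w|) := by
    have h6 := mul_le_mul_of_nonneg_left hR hB0
    apply mul_le_mul_of_nonneg_left _ (by positivity)
    linarith
  have h7 : a ^ 2 * h ^ 2 * (2 * T * (1 + ρ ^ 2) - B * ∫ s, K.g s * |inner ℝ s w|) ≤ 2 * I := by
    rw [← hcomp]
    exact hle
  rw [← hI]
  linarith

end est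

end Pool.Agent.U211.BL
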