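import Pool.Agent.U211.BL.Glob
import Pool.Agent.R765.DMonC
import Pool.Agent.Y899.SH.Cover

/-!
# Homeomorphisms onto the ball with small bi-Lipschitz distortion at the bad points

`glue'` is adapted from `Pool/Agent/Y674/SH/Final3.lean`, `compactO` from `Pool/Agent/R765/DMonC.lean`.
-/

set_option autoImplicit false

open Set Filter Topology Metric Function MeasureTheory
open scoped Manifold ContDiff

noncomputable section

namespace Pool.Agent.U211.BL

open Pool.Agent.Y522 Pool.Agent.Y833.SH Pool.Agent.Y674.SH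

/-- the condition on the distortion in dimension `n` -/
def Good (n : ℕ) (ρ : ℝ) : Prop := 1 ≤ ρ ∧ ρ < 2 ∧ (ρ ^ 2 - 1) * Real.sqrt n < 2 * ρ

theorem exists_good {n N : ℕ} (f : Fin N → ℝ) (hf : ∀ i, Good n (f i)) :
    ∃ ρ, Good n ρ ∧ ∀ i, f i ≤ ρ := by
  rcases Nat.eq_zero_or_pos N with h | h
  · subst h
    exact ⟨1, ⟨le_rfl, by norm_num, by norm_num⟩, fun i => i.elim0⟩
  · have : Nonempty (Fin N) := ⟨⟨0, h⟩⟩
    obtain ⟨i, -, hi⟩ := Finset.exists_max_image Finset.univ f ⟨Classical.arbitrary _, Finset.mem_univ _⟩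
    exact ⟨f i, hf i, fun j => hi j (Finset.mem_univ j)⟩

/-- bi-Lipschitz with distortion `ρ` at `x`, in some smooth parametrization -/
def BiLipAt (n : ℕ) {X : Type} [TopologicalSpace X] [ChartedSpace (E n) X] (F : X → E n) (ρ : ℝ)
    (x : X) : Prop :=
  ∃ A : E n → X, A 0 = x ∧ LD n A 0 ∧ ∃ α r : ℝ, 0 < α ∧ 0 < r ∧
      ∀ p q : E n, ‖p‖ ≤ r → ‖q‖ ≤ r → α * ‖p - q‖ ≤ ‖F (A p) - F (A q)‖ ∧
        ‖F (A p) - F (A q)‖ ≤ ρ * (α * ‖p - q‖)

/-- **Smoothing**, the distortion depends on the point. -/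
theorem smoothingP {n : ℕ} {X : Type} [TopologicalSpace X] [ChartedSpace (E n) X] [T2Space X]
    (F : X → E n) (hF : Continuous F) (hK : IsCompact {x | ¬ LD n F x})
    (hbl : ∀ x, ¬ LD n F x → ∃ ρ, Good n ρ ∧ BiLipAt n F ρ x) {ε₀ : ℝ} (hε₀ : 0 < ε₀) :
    ∃ (F' : X → E n) (C : Set X), IsCompact C ∧ (∀ x, x ∉ C → F' x = F x) ∧
      (∀ x, LD n F' x) ∧ (∀ x, ‖F' x - F x‖ ≤ ε₀) ∧ ((∀ x, ‖F x‖ < 1) → ∀ x, ‖F' x‖ < 1) := by
  have h4 : ∀ x, ¬ LD n F x → ∃ (B : E n → X) (b ρ : ℝ), B 0 = x ∧ Box B ∧ BLip F ρ B b ∧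
      Good n ρ := by
    intro x hx
    obtain ⟨ρ, hρ, A, hA0, hAd, α, r, hα, hr, h⟩ := hbl x hx
    obtain ⟨B, b, h1, h2, h3⟩ := exists_box hA0 hAd hα hr h
    exact ⟨B, b, ρ, h1, h2, h3, hρ⟩
  choose! B b ρ hB0 hB hBL hρ using h4
  have hU : ∀ x (hx : x ∈ {x | ¬ LD n F x}), B x '' ball 0 (1 / 2) ∈ 𝓝 x := by
    intro x hx
    have h2 : LD n (B x) 0 := (hB x hx).ld 0 (by simp)
    have h3 := h2.image_mem_nhds (ball_mem_nhds (0 : E n) (by norm_num : (0 : ℝ) < 1 / 2))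
    rwa [hB0 x hx] at h3
  obtain ⟨t, ht⟩ := hK.elim_nhds_subcover' (fun x _ => B x '' ball 0 (1 / 2)) hU
  obtain ⟨ρ₁, ⟨h1, h2, h3⟩, hρ₁⟩ := exists_good (n := n)
    (fun j : Fin t.card => ρ ((t.equivFin.symm j).1 : X))
    (fun j => hρ _ (t.equivFin.symm j).1.2)
  have hBL' : ∀ j : Fin t.card, BLip F ρ₁ (B ((t.equivFin.symm j).1 : X))
      (b ((t.equivFin.symm j).1 : X)) := by
    intro j
    have h5 := hBL _ (t.equivFin.symm j).1.2
    refine ⟨h5.pos, h5.low, fun p hp q hq => (h5.up p hp q hq).trans ?_⟩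
    exact mul_le_mul_of_nonneg_right (hρ₁ j) (mul_nonneg h5.pos.le (norm_nonneg _))
  obtain ⟨F', g1, g2, g3, g4⟩ := smoothing (N := t.card) F hF h1 h2 h3
    (fun j => B ((t.equivFin.symm j).1 : X)) (fun j => b ((t.equivFin.symm j).1 : X))
    (fun j => hB _ (t.equivFin.symm j).1.2) hBL' (by
      intro x hx
      have h2 := ht hx
      rw [mem_iUnion₂] at h2
      obtain ⟨y, hy, hxy⟩ := h2
      exact ⟨t.equivFin ⟨y, hy⟩, by simpa using hxy⟩) hε₀
  refine ⟨F', ⋃ j : Fin t.card, B ((t.equivFin.symm j).1 : X) '' closedBall 0 1, ?_, ?_, g2, g3, g4⟩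
  · apply isCompact_iUnion
    intro j
    exact box_isCompact (hB _ (t.equivFin.symm j).1.2) (by norm_num)
  · intro x hx
    apply g1
    intro j hj
    exact hx (mem_iUnion.2 ⟨j, hj⟩)

/-- A modification of `h ∘ ι` on a compact set which is a local diffeomorphism gives a
diffeomorphism. -/
theorem glue' (m : ℕ) (M N X : Type) [TopologicalSpace M] [TopologicalSpace N]
    [TopologicalSpace X]
    [ChartedSpace (EuclideanHalfSpace (m + 1)) M] [ChartedSpace (EuclideanHalfSpace (m + 1)) N]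
    [ChartedSpace (E (m + 1)) X]
    [IsManifold (𝓡∂ (m + 1)) ∞ M] [IsManifold (𝓡∂ (m + 1)) ∞ N] [IsManifold (𝓡 (m + 1)) ∞ X]
    (ι : X → M) (hι : Injective ι) (hιr : range ι = (𝓡∂ (m + 1)).interior M)
    (hιd : ∀ x, IsLocalDiffeomorphAt (𝓡 (m + 1)) (𝓡∂ (m + 1)) ∞ ι x)
    (h : M ≃ₜ closedBall (0 : E (m + 1)) 1) (j : N ≃ₜ closedBall (0 : E (m + 1)) 1)
    (hj : ∀ y ∈ (𝓡∂ (m + 1)).interior N,
      IsLocalDiffeomorphAt (𝓡∂ (m + 1)) (𝓡 (m + 1)) ∞ (fun y => (j y : E (m + 1))) y)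
    (hb : ∀ x ∉ (𝓡∂ (m + 1)).interior M,
      IsLocalDiffeomorphAt (𝓡∂ (m + 1)) (𝓡∂ (m + 1)) ∞ (fun x => j.symm (h x)) x)
    (F' : X → E (m + 1)) (C : Set X) (hC : IsCompact C) (hF'i : Injective F')
    (hF'r : range F' = range (fun x => (h (ι x) : E (m + 1))))
    (hF'C : ∀ x ∉ C, F' x = h (ι x)) (hF'd : ∀ x, LD (m + 1) F' x) :
    ∃ Φ : Diffeomorph (𝓡∂ (m + 1)) (𝓡∂ (m + 1)) M N ∞,
      (∀ x, (j (Φ (ι x)) : E (m + 1)) = F' x) ∧ ∀ y, y ∉ range ι → j (Φ y) = h y := by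
  classical
  have hMi : ∀ x, x ∈ (𝓡∂ (m + 1)).interior M ↔ ‖(h x : E (m + 1))‖ < 1 :=
    int_iff (𝓡∂ (m + 1)) inferInstance h
  have hNi : ∀ x, x ∈ (𝓡∂ (m + 1)).interior N ↔ ‖(j x : E (m + 1))‖ < 1 :=
    int_iff (𝓡∂ (m + 1)) inferInstance j
  have : T2Space M := h.symm.t2Space
  have : CompactSpace M := h.symm.compactSpace
  have hιc : Continuous ι := continuous_iff_continuousAt.2 fun x => (hιd x).contMDiffAt.continuousAt
  have : T2Space X := T2Space.of_injective_continuous hι hιc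
  have hιo : IsOpenMap ι := IsLocalDiffeomorph.isOpenMap (I := 𝓡 (m + 1)) (J := 𝓡∂ (m + 1))
    (n := ∞) hιd
  have hemb : IsOpenEmbedding ι := IsOpenEmbedding.of_continuous_injective_isOpenMap hιc hι hιo
  have hmem : ∀ x, ι x ∈ (𝓡∂ (m + 1)).interior M := fun x => hιr ▸ mem_range_self x
  obtain ⟨F, hF⟩ : ∃ F : X → E (m + 1), F = fun x => (h (ι x) : E (m + 1)) := ⟨_, rfl⟩
  have hFe : ∀ x, F x = h (ι x) := fun x => by rw [hF]
  rw [← hF] at hF'r
  have hFn : ∀ x, ‖F x‖ < 1 := fun x => by rw [hFe]; exact (hMi _).1 (hmem x)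
  have hFc : Continuous F := by
    rw [hF]
    exact continuous_subtype_val.comp (h.continuous.comp hιc)
  have hFi : Injective F := by
    intro a b hab
    rw [hFe, hFe] at hab
    exact hι (h.injective (Subtype.ext hab))
  -- local diffeomorphism
  have hld : ∀ x, IsLocalDiffeomorphAt (𝓡∂ (m + 1)) (𝓡∂ (m + 1)) ∞ (fun x => j.symm (h x)) (ι x) →
      LD (m + 1) F x := by
    intro x hx
    have h1 := IsLocalDiffeomorphAt.comp (𝓡∂ (m + 1)) N (hιd x) hx
    have h2 : IsLocalDiffeomorphAt (𝓡∂ (m + 1)) (𝓡 (m + 1)) ∞ (fun y => (j y : E (m + 1)))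
        (((fun x => j.symm (h x)) ∘ ι) x) := by
      refine hj _ ((hNi _).2 ?_)
      simp only [comp_apply, Homeomorph.apply_symm_apply]
      rw [← hFe]
      exact hFn x
    have h3 := IsLocalDiffeomorphAt.comp (𝓡 (m + 1)) (E (m + 1)) h1 h2
    have h4 : (fun y => (j y : E (m + 1))) ∘ (fun x => j.symm (h x)) ∘ ι = F := by
      funext y
      simp only [comp_apply, Homeomorph.apply_symm_apply]
      rw [hFe]
    rw [h4] at h3
    exact h3
  have hF'n : ∀ x, ‖F' x‖ < 1 := by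
    intro x
    have : F' x ∈ range F := hF'r ▸ mem_range_self x
    obtain ⟨y, hy⟩ := this
    rw [← hy]
    exact hFn y
  obtain ⟨G, hG1, hG2⟩ : ∃ G : M → closedBall (0 : E (m + 1)) 1,
      (∀ x, (G (ι x) : E (m + 1)) = F' x) ∧ ∀ y, y ∉ range ι → G y = h y := by
    refine ⟨fun y => if hy : ∃ x, ι x = y then ⟨F' hy.choose, by
      rw [mem_closedBall_zero_iff]; exact (hF'n _).le⟩ else h y, ?_, ?_⟩
    · intro x
      have hx : ∃ x', ι x' = ι x := ⟨x, rfl⟩
      simp only [dif_pos hx]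
      rw [hι hx.choose_spec]
    · intro y hy
      have : ¬ ∃ x, ι x = y := hy
      simp only [dif_neg this]
  have hbn : ∀ y, y ∉ range ι → ¬ ‖(h y : E (m + 1))‖ < 1 := by
    intro y hy h1
    rw [← hMi, ← hιr] at h1
    exact hy h1
  have hGi : Injective G := by
    intro a b hab
    by_cases ha : a ∈ range ι
    · by_cases hb' : b ∈ range ι
      · obtain ⟨x, rfl⟩ := ha
        obtain ⟨y, rfl⟩ := hb'
        have := congrArg (Subtype.val) hab
        rw [hG1, hG1] at this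
        rw [hF'i this]
      · exfalso
        obtain ⟨x, rfl⟩ := ha
        have := congrArg (Subtype.val) hab
        rw [hG1, hG2 b hb'] at this
        exact hbn b hb' (this ▸ hF'n x)
    · by_cases hb' : b ∈ range ι
      · exfalso
        obtain ⟨x, rfl⟩ := hb'
        have := congrArg (Subtype.val) hab
        rw [hG1, hG2 a ha] at this
        exact hbn a ha (this ▸ hF'n x)
      · rw [hG2 a ha, hG2 b hb'] at hab
        exact h.injective hab
  have hGs : Surjective G := by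
    intro y
    by_cases hy : ‖(y : E (m + 1))‖ < 1
    · have h1 : h.symm y ∈ range ι := by
        rw [hιr, hMi, h.apply_symm_apply]
        exact hy
      obtain ⟨x, hx⟩ := h1
      have h2 : (y : E (m + 1)) ∈ range F' := by
        rw [hF'r]
        refine ⟨x, ?_⟩
        rw [hFe, hx, h.apply_symm_apply]
      obtain ⟨x', hx'⟩ := h2
      refine ⟨ι x', Subtype.ext ?_⟩
      rw [hG1, hx']
    · refine ⟨h.symm y, ?_⟩
      rw [hG2, h.apply_symm_apply]
      intro h1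
      rw [hιr, hMi, h.apply_symm_apply] at h1
      exact hy h1
  have hloc : IsLocalDiffeomorph (𝓡∂ (m + 1)) (𝓡∂ (m + 1)) ∞ (fun y => j.symm (G y)) := by
    intro y
    by_cases hy : y ∈ range ι
    · obtain ⟨x, rfl⟩ := hy
      have ha := (hιd x).localInverse_isLocalDiffeomorphAt
      have hax : (hιd x).localInverse (ι x) = x :=
        (hιd x).localInverse_left_inv (hιd x).localInverse_mem_target
      have h1 : LD (m + 1) F' ((hιd x).localInverse (ι x)) := by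
        rw [hax]
        exact hF'd x
      have h2 := IsLocalDiffeomorphAt.comp (𝓡 (m + 1)) (E (m + 1)) ha h1
      have hjp : IsLocalDiffeomorphAt (𝓡∂ (m + 1)) (𝓡 (m + 1)) ∞ (fun y => (j y : E (m + 1)))
          (j.symm (G (ι x))) := by
        refine hj _ ((hNi _).2 ?_)
        rw [j.apply_symm_apply, hG1]
        exact hF'n x
      have h3 := hjp.localInverse_isLocalDiffeomorphAt
      have h4 : (j (j.symm (G (ι x))) : E (m + 1)) = (F' ∘ (hιd x).localInverse) (ι x) := by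
        rw [j.apply_symm_apply, hG1, comp_apply, hax]
      beta_reduce at h3
      rw [h4] at h3
      have h5 := IsLocalDiffeomorphAt.comp (𝓡∂ (m + 1)) N h2 h3
      refine ld_congr h5 ?_
      have h6 : (F' ∘ (hιd x).localInverse) (ι x) ∈ hjp.localInverse.source := by
        rw [← h4]
        exact hjp.localInverse_mem_source
      filter_upwards [(hιd x).localInverse.open_source.mem_nhds (hιd x).localInverse_mem_source,
        h2.contMDiffAt.continuousAt (hjp.localInverse.open_source.mem_nhds h6)] with y' g1 g2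
      have g3 : ι ((hιd x).localInverse y') = y' := (hιd x).localInverse_right_inv g1
      have g4 := hjp.localInverse_right_inv g2
      show j.symm (G y') = hjp.localInverse ((F' ∘ (hιd x).localInverse) y')
      rw [Homeomorph.symm_apply_eq]
      refine Subtype.ext ?_
      beta_reduce at g4
      rw [g4, comp_apply, ← hG1, g3]
    · have hyi : y ∉ (𝓡∂ (m + 1)).interior M := by rwa [← hιr]
      refine ld_congr (hb y hyi) ?_
      have h1 : IsClosed (ι '' C) := (hC.image hιc).isClosed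
      have h2 : y ∉ ι '' C := fun h2 => hy (image_subset_range _ _ h2)
      filter_upwards [h1.isOpen_compl.mem_nhds h2] with y' hy'
      by_cases g1 : y' ∈ range ι
      · obtain ⟨x', rfl⟩ := g1
        have g2 : x' ∉ C := fun g2 => hy' ⟨x', g2, rfl⟩
        have g3 : G (ι x') = h (ι x') := by
          refine Subtype.ext ?_
          rw [hG1, hF'C x' g2]
        rw [g3]
      · rw [hG2 y' g1]
  refine ⟨hloc.diffeomorphOfBijective ⟨fun a b hab => hGi (j.symm.injective hab),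
    j.symm.surjective.comp hGs⟩, fun x => ?_, fun y hy => ?_⟩
  · show (j (j.symm (G (ι x))) : E (m + 1)) = F' x
    rw [j.apply_symm_apply, hG1]
  · show j (j.symm (G y)) = h y
    rw [j.apply_symm_apply, hG2 y hy]

theorem bcore (m : ℕ) (M N X : Type) [TopologicalSpace M] [TopologicalSpace N]
    [TopologicalSpace X]
    [ChartedSpace (EuclideanHalfSpace (m + 1)) M] [ChartedSpace (EuclideanHalfSpace (m + 1)) N]
    [ChartedSpace (E (m + 1)) X]
    [IsManifold (𝓡∂ (m + 1)) ∞ M] [IsManifold (𝓡∂ (m + 1)) ∞ N] [IsManifold (𝓡 (m + 1)) ∞ X]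
    (ι : X → M) (hι : Injective ι) (hιr : range ι = (𝓡∂ (m + 1)).interior M)
    (hιd : ∀ x, IsLocalDiffeomorphAt (𝓡 (m + 1)) (𝓡∂ (m + 1)) ∞ ι x)
    (h : M ≃ₜ closedBall (0 : E (m + 1)) 1) (j : N ≃ₜ closedBall (0 : E (m + 1)) 1)
    (hj : ∀ y ∈ (𝓡∂ (m + 1)).interior N,
      IsLocalDiffeomorphAt (𝓡∂ (m + 1)) (𝓡 (m + 1)) ∞ (fun y => (j y : E (m + 1))) y)
    (hb : ∀ x ∉ (𝓡∂ (m + 1)).interior M,
      IsLocalDiffeomorphAt (𝓡∂ (m + 1)) (𝓡∂ (m + 1)) ∞ (fun x => j.symm (h x)) x)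
    (hc : ∀ x ∈ (𝓡∂ (m + 1)).interior M,
      ¬ IsLocalDiffeomorphAt (𝓡∂ (m + 1)) (𝓡 (m + 1)) ∞ (fun x => (h x : E (m + 1))) x →
      ∃ ρ, Good (m + 1) ρ ∧ ∃ A : E (m + 1) → M, A 0 = x ∧
      IsLocalDiffeomorphAt (𝓡 (m + 1)) (𝓡∂ (m + 1)) ∞ A 0 ∧ ∃ α r : ℝ, 0 < α ∧ 0 < r ∧
        ∀ p q : E (m + 1), ‖p‖ ≤ r → ‖q‖ ≤ r →
          α * ‖p - q‖ ≤ ‖(h (A p) : E (m + 1)) - h (A q)‖ ∧
          ‖(h (A p) : E (m + 1)) - h (A q)‖ ≤ ρ * (α * ‖p - q‖))
    {ε₀ : ℝ} (hε₀ : 0 < ε₀) :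
    ∃ (Φ : Diffeomorph (𝓡∂ (m + 1)) (𝓡∂ (m + 1)) M N ∞) (C : Set M), IsCompact C ∧
      C ⊆ (𝓡∂ (m + 1)).interior M ∧ (∀ x, x ∉ C → j (Φ x) = h x) ∧
      ∀ x, ‖(j (Φ x) : E (m + 1)) - h x‖ ≤ ε₀ := by
  classical
  have hK := nonLD_compact m M N X ι hι hιr hιd h j hj hb
  have hMi : ∀ x, x ∈ (𝓡∂ (m + 1)).interior M ↔ ‖(h x : E (m + 1))‖ < 1 :=
    int_iff (𝓡∂ (m + 1)) inferInstance h
  have : T2Space M := h.symm.t2Space
  have : CompactSpace M := h.symm.compactSpace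
  have hιc : Continuous ι := continuous_iff_continuousAt.2 fun x => (hιd x).contMDiffAt.continuousAt
  have : T2Space X := T2Space.of_injective_continuous hι hιc
  have hιo : IsOpenMap ι := IsLocalDiffeomorph.isOpenMap (I := 𝓡 (m + 1)) (J := 𝓡∂ (m + 1))
    (n := ∞) hιd
  have hemb : IsOpenEmbedding ι := IsOpenEmbedding.of_continuous_injective_isOpenMap hιc hι hιo
  have hmem : ∀ x, ι x ∈ (𝓡∂ (m + 1)).interior M := fun x => hιr ▸ mem_range_self x
  obtain ⟨F, hF⟩ : ∃ F : X → E (m + 1), F = fun x => (h (ι x) : E (m + 1)) := ⟨_, rfl⟩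
  have hFe : ∀ x, F x = h (ι x) := fun x => by rw [hF]
  rw [← hF] at hK
  have hFn : ∀ x, ‖F x‖ < 1 := fun x => by rw [hFe]; exact (hMi _).1 (hmem x)
  have hFc : Continuous F := by
    rw [hF]
    exact continuous_subtype_val.comp (h.continuous.comp hιc)
  have hFi : Injective F := by
    intro a b hab
    rw [hFe, hFe] at hab
    exact hι (h.injective (Subtype.ext hab))
  have hFr : range F = ball 0 1 := by
    ext y
    constructor
    · rintro ⟨x, rfl⟩
      rw [mem_ball_zero_iff]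
      exact hFn x
    · intro hy
      rw [mem_ball_zero_iff] at hy
      have hyc : y ∈ closedBall (0 : E (m + 1)) 1 := by
        rw [mem_closedBall_zero_iff]
        exact hy.le
      have h1 : h.symm ⟨y, hyc⟩ ∈ range ι := by
        rw [hιr, hMi, h.apply_symm_apply]
        exact hy
      obtain ⟨x, hx⟩ := h1
      refine ⟨x, ?_⟩
      rw [hFe, hx, h.apply_symm_apply]
  have hFo : IsOpenMap F := by
    intro U hU
    obtain ⟨W, hW, hWU⟩ := isOpen_induced_iff.1 (h.isOpenMap _ (hιo U hU))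
    have : F '' U = W ∩ ball 0 1 := by
      ext y
      constructor
      · rintro ⟨x, hx, rfl⟩
        refine ⟨?_, ?_⟩
        · have : h (ι x) ∈ h '' (ι '' U) := ⟨ι x, ⟨x, hx, rfl⟩, rfl⟩
          rw [← hWU] at this
          rw [hFe]
          exact this
        · rw [mem_ball_zero_iff]
          exact hFn x
      · rintro ⟨h1, h2⟩
        rw [← hFr] at h2
        obtain ⟨x, rfl⟩ := h2
        have h3 : h (ι x) ∈ Subtype.val ⁻¹' W := by
          rw [mem_preimage, ← hFe]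
          exact h1
        rw [hWU] at h3
        obtain ⟨_, ⟨x', hx', rfl⟩, h4⟩ := h3
        refine ⟨x', hx', ?_⟩
        rw [hFe, hFe, h4]
    rw [this]
    exact hW.inter isOpen_ball
  have hFe' : IsOpenEmbedding F := IsOpenEmbedding.of_continuous_injective_isOpenMap hFc hFi hFo
  have hD : ∀ x, ¬ LD (m + 1) F x → ∃ ρ, Good (m + 1) ρ ∧ BiLipAt (m + 1) F ρ x := by
    intro x hxF
    obtain ⟨ρ, hρ, A, hA0, hAd, α, r, hα, hr, hA⟩ := hc (ι x) (hmem x) (fun hld => hxF (by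
      have h9 : IsLocalDiffeomorphAt (𝓡 (m + 1)) (𝓡 (m + 1)) ∞
          ((fun x => (h x : E (m + 1))) ∘ ι) x :=
        IsLocalDiffeomorphAt.comp (𝓡 (m + 1)) (E (m + 1)) (hιd x) hld
      rw [hF]
      exact h9))
    -- the local inverse of the inclusion
    have ha := (hιd x).localInverse_isLocalDiffeomorphAt
    have hax : (hιd x).localInverse (ι x) = x :=
      (hιd x).localInverse_left_inv (hιd x).localInverse_mem_target
    have hA' : LD (m + 1) ((hιd x).localInverse ∘ A) 0 := by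
      rw [← hA0] at ha
      exact IsLocalDiffeomorphAt.comp (𝓡 (m + 1)) X hAd ha
    have hev : ∀ᶠ z in 𝓝 (0 : E (m + 1)), ι ((hιd x).localInverse (A z)) = A z := by
      have h1 : A 0 ∈ (hιd x).localInverse.source := by
        rw [hA0]
        exact (hιd x).localInverse_mem_source
      filter_upwards [hAd.contMDiffAt.continuousAt
        ((hιd x).localInverse.open_source.mem_nhds h1)] with z hz
      exact (hιd x).localInverse_right_inv hz
    obtain ⟨δ, hδ, hδe⟩ := Metric.eventually_nhds_iff_ball.1 hev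
    refine ⟨ρ, hρ, (hιd x).localInverse ∘ A, ?_, hA', α, min r (δ / 2), hα,
      lt_min hr (by linarith), ?_⟩
    · rw [comp_apply, hA0, hax]
    · intro p q hp hq
      have e1 : ∀ z : E (m + 1), ‖z‖ ≤ min r (δ / 2) →
          F (((hιd x).localInverse ∘ A) z) = h (A z) := by
        intro z hz
        rw [hFe, comp_apply, hδe z]
        rw [mem_ball_zero_iff]
        have := hz.trans (min_le_right _ _)
        linarith
      rw [e1 p hp, e1 q hq]
      exact hA p q (hp.trans (min_le_left _ _)) (hq.trans (min_le_left _ _))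
  obtain ⟨F', C, hC, hF'C, hF'd, hcl, hlt⟩ := smoothingP F hFc hK hD hε₀
  obtain ⟨hF'i, hF'r⟩ := Pool.Agent.Y899.SH.cover (m + 1) X F F' C hFe' hFr hC hF'C (hlt hFn) hF'd
  obtain ⟨Φ, hΦ1, hΦ2⟩ := glue' m M N X ι hι hιr hιd h j hj hb F' C hC hF'i
    (by rw [hF'r, ← hFr, hF]) (fun x hx => by rw [hF'C x hx, hFe]) hF'd
  refine ⟨Φ, ι '' C, hC.image hιc, ?_, ?_, ?_⟩
  · rintro _ ⟨x, -, rfl⟩
    exact hmem x
  · intro y hy
    by_cases hyr : y ∈ range ι
    · obtain ⟨x, rfl⟩ := hyr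
      refine Subtype.ext ?_
      rw [hΦ1, hF'C x (fun hx => hy ⟨x, hx, rfl⟩), hFe]
    · exact hΦ2 y hyr
  · intro y
    by_cases hyr : y ∈ range ι
    · obtain ⟨x, rfl⟩ := hyr
      rw [hΦ1, ← hFe]
      exact hcl x
    · rw [hΦ2 y hyr, sub_self, norm_zero]
      exact hε₀.le

/-- Homeomorphisms onto the ball which are local diffeomorphisms at the boundary points and
bi-Lipschitz with small distortion at those interior points at which they are not local
diffeomorphisms. -/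
theorem bcompact (m : ℕ) (M N : Type) [TopologicalSpace M] [TopologicalSpace N]
    [ChartedSpace (EuclideanHalfSpace (m + 1)) M] [ChartedSpace (EuclideanHalfSpace (m + 1)) N]
    [IsManifold (𝓡∂ (m + 1)) ∞ M] [IsManifold (𝓡∂ (m + 1)) ∞ N]
    (h : M ≃ₜ closedBall (0 : E (m + 1)) 1) (j : N ≃ₜ closedBall (0 : E (m + 1)) 1)
    (hj : ∀ y ∈ (𝓡∂ (m + 1)).interior N,
      IsLocalDiffeomorphAt (𝓡∂ (m + 1)) (𝓡 (m + 1)) ∞ (fun y => (j y : E (m + 1))) y)
    (hb : ∀ x ∉ (𝓡∂ (m + 1)).interior M,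
      IsLocalDiffeomorphAt (𝓡∂ (m + 1)) (𝓡∂ (m + 1)) ∞ (fun x => j.symm (h x)) x)
    (hc : ∀ x ∈ (𝓡∂ (m + 1)).interior M,
      ¬ IsLocalDiffeomorphAt (𝓡∂ (m + 1)) (𝓡 (m + 1)) ∞ (fun x => (h x : E (m + 1))) x →
      ∃ ρ, Good (m + 1) ρ ∧ ∃ A : E (m + 1) → M, A 0 = x ∧
      IsLocalDiffeomorphAt (𝓡 (m + 1)) (𝓡∂ (m + 1)) ∞ A 0 ∧ ∃ α r : ℝ, 0 < α ∧ 0 < r ∧
        ∀ p q : E (m + 1), ‖p‖ ≤ r → ‖q‖ ≤ r →
          α * ‖p - q‖ ≤ ‖(h (A p) : E (m + 1)) - h (A q)‖ ∧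
          ‖(h (A p) : E (m + 1)) - h (A q)‖ ≤ ρ * (α * ‖p - q‖))
    {ε₀ : ℝ} (hε₀ : 0 < ε₀) :
    ∃ (Φ : Diffeomorph (𝓡∂ (m + 1)) (𝓡∂ (m + 1)) M N ∞) (C : Set M), IsCompact C ∧
      C ⊆ (𝓡∂ (m + 1)).interior M ∧ (∀ x, x ∉ C → j (Φ x) = h x) ∧
      ∀ x, ‖(j (Φ x) : E (m + 1)) - h x‖ ≤ ε₀ := by
  let := csI (M := M) (𝓡∂ (m + 1))
  have := mfI (M := M) (𝓡∂ (m + 1))
  exact bcore m M N ((𝓡∂ (m + 1)).interior M) Subtype.val Subtype.val_injective
    Subtype.range_val (fun x => ldiff_val (𝓡∂ (m + 1)) x) h j hj hb hc hε₀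

end Pool.Agent.U211.BL
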