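import Pool.Agent.U211.BL.AsmB

/-!
# Smoothing of locally bi-Lipschitz homeomorphisms with small distortion
-/

set_option autoImplicit false

open Set Filter Topology Metric Function MeasureTheory
open scoped Manifold ContDiff

noncomputable section

namespace Pool.Agent.U211.BL

open Pool.Agent.Y522

theorem small (C : ℝ) {D : ℝ} (hD : 0 < D) : ∀ᶠ t in 𝓝[>] (0 : ℝ), t * C < D := by
  have h : Tendsto (fun t : ℝ => t * C) (𝓝[>] 0) (𝓝 (0 * C)) :=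
    ((continuous_id.mul continuous_const).tendsto 0).mono_left nhdsWithin_le_nhds
  rw [zero_mul] at h
  exact h.eventually (gt_mem_nhds hD)

theorem params {ρ₁ s : ℝ} (_h1 : 1 ≤ ρ₁) (h2 : ρ₁ < 2) (h3 : (ρ₁ ^ 2 - 1) * s < 2 * ρ₁) :
    ∃ ρ r : ℝ, ρ₁ < ρ ∧ ρ ≤ 2 ∧ 0 < r ∧ r < 1 ∧ (ρ ^ 2 - 1) * s < 2 * ρ * r := by
  have hc : Tendsto (fun t : ℝ => 2 * (ρ₁ + t) * (1 - t) - ((ρ₁ + t) ^ 2 - 1) * s) (𝓝[>] 0)
      (𝓝 (2 * (ρ₁ + 0) * (1 - 0) - ((ρ₁ + 0) ^ 2 - 1) * s)) :=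
    ((by fun_prop : Continuous fun t : ℝ =>
      2 * (ρ₁ + t) * (1 - t) - ((ρ₁ + t) ^ 2 - 1) * s).tendsto 0).mono_left nhdsWithin_le_nhds
  have h4 : ∀ᶠ t in 𝓝[>] (0 : ℝ), 0 < 2 * (ρ₁ + t) * (1 - t) - ((ρ₁ + t) ^ 2 - 1) * s :=
    hc.eventually (lt_mem_nhds (by simp only [add_zero, sub_zero, mul_one]; linarith))
  have h5 := small 1 (D := 1) one_pos
  have h6 := small 1 (D := 2 - ρ₁) (by linarith)
  obtain ⟨t, ⟨ht4, ht5, ht6⟩, ht0⟩ := ((h4.and (h5.and h6)).and self_mem_nhdsWithin).exists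
  have ht0' : 0 < t := ht0
  rw [mul_one] at ht5 ht6
  exact ⟨ρ₁ + t, 1 - t, by linarith, by linarith, by linarith, by linarith, by linarith⟩

theorem exists_num {n : ℕ} {ρ₁ : ℝ} (h1 : 1 ≤ ρ₁) (h2 : ρ₁ < 2)
    (h3 : (ρ₁ ^ 2 - 1) * Real.sqrt n < 2 * ρ₁) :
    ∃ r₀ ρ η κ : ℝ, 0 < η ∧ r₀ < 1 ∧ Num n r₀ ρ₁ ρ η κ := by
  obtain ⟨ρ, r, hρ1, hρ2, hr0, hr1, hρ⟩ := params h1 h2 h3
  have hρ0 : 0 < ρ := by linarith
  obtain ⟨q, hq⟩ : ∃ q, q = Real.sqrt n / r := ⟨_, rfl⟩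
  obtain ⟨κ, hκ⟩ : ∃ κ, κ = 2 - (ρ ^ 2 - 1) * q / ρ := ⟨_, rfl⟩
  have hκ0 : 0 < κ := by
    rw [hκ, sub_pos, div_lt_iff₀ hρ0, hq, ← mul_div_assoc, div_lt_iff₀ hr0]
    exact hρ
  have hinv : 0 < 1 / ρ₁ - 1 / ρ := sub_pos.2 (one_div_lt_one_div_of_lt (by linarith) hρ1)
  obtain ⟨η, ⟨e1, e2, e3, e4⟩, hη⟩ := (((small 1 (D := 1) one_pos).and ((small 1 (D := ρ - ρ₁)
    (by linarith)).and ((small 1 hinv).and (small (13 * ρ ^ 2 * q) hκ0)))).and
      self_mem_nhdsWithin).exists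
  have hη0 : 0 < η := hη
  rw [mul_one] at e1 e2 e3
  refine ⟨r, ρ, η, κ, hη0, hr1, ⟨hr0, h1, hη0.le, e1.le, by linarith, by linarith, hρ2, hκ0, ?_,
    ?_⟩⟩
  · rw [← hq, hκ]
  · rw [← hq]
    linarith

theorem exists_lower' {ι : Type} [Fintype ι] (f : ι → ℝ) (hf : ∀ j, 0 < f j) :
    ∃ κ : ℝ, 0 < κ ∧ ∀ j, κ ≤ f j := by
  have h0 : 0 ≤ ∑ j, (f j)⁻¹ := Finset.sum_nonneg fun j _ => (inv_pos.2 (hf j)).le
  refine ⟨(∑ j, (f j)⁻¹ + 1)⁻¹, inv_pos.2 (by linarith), fun j => ?_⟩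
  rw [inv_le_comm₀ (by linarith) (hf j)]
  have h1 : (f j)⁻¹ ≤ ∑ j, (f j)⁻¹ :=
    Finset.single_le_sum (f := fun j => (f j)⁻¹) (fun j _ => (inv_pos.2 (hf j)).le)
      (Finset.mem_univ j)
  linarith

theorem exists_upper' {ι : Type} [Fintype ι] (f : ι → ℝ) (hf : ∀ j, 0 ≤ f j) :
    ∃ C : ℝ, 0 ≤ C ∧ ∀ j, f j ≤ C :=
  ⟨∑ j, f j, Finset.sum_nonneg fun j _ => hf j, fun j =>
    Finset.single_le_sum (f := f) (fun j _ => hf j) (Finset.mem_univ j)⟩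

variable {n : ℕ} {X : Type} [TopologicalSpace X] [ChartedSpace (E n) X] [T2Space X]

/-- **Smoothing.** -/
theorem smoothing (F : X → E n) (hF : Continuous F) {ρ₁ : ℝ} (h1 : 1 ≤ ρ₁) (h2 : ρ₁ < 2)
    (h3 : (ρ₁ ^ 2 - 1) * Real.sqrt n < 2 * ρ₁) {N : ℕ} (B : Fin N → E n → X) (a : Fin N → ℝ)
    (hB : ∀ i, Box (B i)) (hA : ∀ i, BLip F ρ₁ (B i) (a i))
    (hK : ∀ x, ¬ LD n F x → ∃ i, x ∈ B i '' ball 0 (1 / 2)) {ε₀ : ℝ} (hε₀ : 0 < ε₀) :
    ∃ F' : X → E n, (∀ x, (∀ i, x ∉ B i '' closedBall 0 1) → F' x = F x) ∧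
      (∀ x, LD n F' x) ∧ (∀ x, ‖F' x - F x‖ ≤ ε₀) ∧ ((∀ x, ‖F x‖ < 1) → ∀ x, ‖F' x‖ < 1) := by
  obtain ⟨r₀, ρ, η, κ, hη, hr1, hN⟩ := exists_num h1 h2 h3
  obtain ⟨K⟩ := exists_ker n hN.r0 hr1
  have hρ0 : 0 < ρ := by linarith [hN.ηρ]
  have hκ0 := hN.κ0
  obtain ⟨m, hm0, hm⟩ := exists_lower' a fun i => (hA i).pos
  obtain ⟨Mx, hMx0, hMx⟩ := exists_upper' a fun i => (hA i).pos.le
  obtain ⟨ε, e1, hε0⟩ := ((small Mx (D := η * m) (by positivity)).and self_mem_nhdsWithin).exists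
  have hε0' : 0 < ε := hε0
  have hε : ∀ i j, ε * a i ≤ η * a j := by
    intro i j
    calc ε * a i ≤ ε * Mx := mul_le_mul_of_nonneg_left (hMx i) hε0'.le
      _ ≤ η * m := e1.le
      _ ≤ η * a j := mul_le_mul_of_nonneg_left (hm j) hη.le
  have htr := fun p : Fin N × Fin N => trans_unif (hB p.2) (hB p.1) hε0'
  choose δt hδt htr using htr
  obtain ⟨δ₀, hδ₀, hδ₀le⟩ := exists_lower' δt hδt
  have hlip := fun i => rr_lip (ps_smooth B hB) (hB i)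
  choose Λi hΛi0 hΛi using hlip
  obtain ⟨Λ, hΛ0, hΛ⟩ := exists_upper' Λi hΛi0
  have hCb : ∀ p : Fin N × Fin N, ∃ C : ℝ, 0 ≤ C ∧ ∀ y : E n, ‖y‖ ≤ 1 →
      ‖fderiv ℝ (fun y => wt B p.1 (B p.2 y)) y‖ ≤ C := by
    intro p
    have hcont : ContinuousOn (fderiv ℝ (fun y => wt B p.1 (B p.2 y))) (closedBall (0 : E n) 1) := by
      intro y hy
      rw [mem_closedBall_zero_iff] at hy
      have h4 := smooth_in_box (hB p.2) (by linarith : ‖y‖ ≤ 2) (wt_smooth B hB p.1 _)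
      exact (h4.fderiv_right (m := 0) (by simp)).continuousAt.continuousWithinAt
    obtain ⟨C, hC⟩ := (isCompact_closedBall (0 : E n) 1).exists_bound_of_continuousOn hcont
    exact ⟨|C|, abs_nonneg _, fun y hy => (hC y (by simpa using hy)).trans (le_abs_self _)⟩
  choose Cp hCp0 hCp using hCb
  obtain ⟨Cχ, hCχ0, hCχ⟩ := exists_upper' Cp hCp0
  -- the scale
  obtain ⟨δ, ⟨d1, d2, d3, d4, d5⟩, hδ⟩ := (((small (N : ℝ) (D := m / 4) (by positivity)).and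
    ((small (N / m) hδ₀).and ((small (8 * ρ ^ 2 * Λ / m) hκ0).and
    ((small (N * (Cχ * ρ₁) * (2 * ρ₁ * N)) (D := m * κ / (4 * ρ)) (by positivity)).and
      (small (ρ₁ * N) hε₀))))).and self_mem_nhdsWithin).exists
  have hδ0 : 0 < δ := hδ
  obtain ⟨c, hc⟩ : ∃ c : Fin N → E n → ℝ, c = fun i z => δ * rr (ps B) (B i) z / a i := ⟨_, rfl⟩
  have hcd : ∀ i z, c i z = δ * rr (ps B) (B i) z / a i := fun i z => by rw [hc]
  have hrr0 : ∀ i z, 0 ≤ rr (ps B) (B i) z := fun i z => rr_nonneg (ps_nonneg B) (B i) z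
  have hrr1 : ∀ i z, rr (ps B) (B i) z ≤ N := fun i z => rr_le (ps_nonneg B) (ps_le B) (B i) z
  have hRad : ∀ i, Rad (c i) := by
    intro i
    have hai := (hA i).pos
    refine ⟨?_, ?_, ?_, ?_⟩
    · have h4 : c i = fun z => δ * rr (ps B) (B i) z / a i := by rw [hc]
      rw [h4]
      exact (contDiff_const.mul (rr_smooth (ps_smooth B hB) (hB i))).div_const _
    · intro z
      rw [hcd]
      exact div_nonneg (mul_nonneg hδ0.le (hrr0 i z)) hai.le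
    · intro z
      rw [hcd, div_le_iff₀ hai]
      calc δ * rr (ps B) (B i) z ≤ δ * N := mul_le_mul_of_nonneg_left (hrr1 i z) hδ0.le
        _ ≤ 1 / 4 * m := by linarith
        _ ≤ 1 / 4 * a i := mul_le_mul_of_nonneg_left (hm i) (by norm_num)
    · intro z hz
      rw [hcd, rr_zero _ _ hz, mul_zero, zero_div]
  have hac : ∀ i z, a i * c i z ≤ δ * N := by
    intro i z
    rw [hcd, mul_div_cancel₀ _ (hA i).pos.ne']
    exact mul_le_mul_of_nonneg_left (hrr1 i z) hδ0.le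
  refine ⟨Fs K B F c, fun x hx => Fs_off K B F c hx, ?_, ?_, ?_⟩
  · intro x
    rcases (ps_nonneg B x).lt_or_eq with hx | hx
    · have hxN := ps_le B x
      refine Fs_LD_pos K (β := δ * Λ / m) (Cχ := Cχ) (ε := ε) (δ := δ) hN hB hF hRad hA hx
        hδ0 hcd ?_ hε ?_ ?_ ?_ ?_
      · intro i
        constructor
        · have : 8 * ρ ^ 2 * (δ * Λ / m) = δ * (8 * ρ ^ 2 * Λ / m) := by ring
          rw [this]
          exact d3.le
        · intro y z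
          rw [hcd, hcd, ← sub_div, ← mul_sub, abs_div, abs_mul, abs_of_pos hδ0,
            abs_of_pos (hA i).pos, div_le_iff₀ (hA i).pos]
          have h4 := hΛi i y z
          have h5 : Λi i * ‖y - z‖ ≤ Λ * ‖y - z‖ :=
            mul_le_mul_of_nonneg_right (hΛ i) (norm_nonneg _)
          calc δ * |rr (ps B) (B i) y - rr (ps B) (B i) z| ≤ δ * (Λ * ‖y - z‖) :=
                mul_le_mul_of_nonneg_left (h4.trans h5) hδ0.le
            _ = δ * Λ / m * ‖y - z‖ * m := by field_simp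
            _ ≤ δ * Λ / m * ‖y - z‖ * a i := by
                apply mul_le_mul_of_nonneg_left (hm i)
                positivity
      · intro j
        rw [div_le_iff₀ (hA j).pos]
        calc δ * ps B x ≤ δ * N := mul_le_mul_of_nonneg_left hxN hδ0.le
          _ ≤ 1 / 4 * m := by linarith
          _ ≤ 1 / 4 * a j := mul_le_mul_of_nonneg_left (hm j) (by norm_num)
      · intro i j y z hy hz hyz v hv
        refine htr (i, j) y z hy hz hyz v (hv.trans ?_)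
        refine le_trans ?_ (hδ₀le (i, j))
        refine le_trans ?_ d2.le
        rw [← mul_div_assoc]
        apply div_le_div₀ (by positivity) (mul_le_mul_of_nonneg_left hxN hδ0.le) hm0 (hm j)
      · intro i j y hy
        exact (hCp (i, j) y hy).trans (hCχ (i, j))
      · intro j
        calc N * (Cχ * ρ₁) * (2 * ρ₁ * (δ * ps B x)) ≤ N * (Cχ * ρ₁) * (2 * ρ₁ * (δ * N)) := by
              gcongr
          _ = δ * (N * (Cχ * ρ₁) * (2 * ρ₁ * N)) := by ring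
          _ < m * κ / (4 * ρ) := d4
          _ ≤ a j * κ / (4 * ρ) := by
              gcongr
              exact hm j
    · have hLD : LD n F x := by
        by_contra hcon
        obtain ⟨i, hi⟩ := hK x hcon
        have := ps_pos B hB hi
        rw [← hx] at this
        exact lt_irrefl _ this
      apply Fs_LD_null K hB hF hRad hLD
      intro i z hz
      rw [hcd]
      unfold rr
      rw [hz, ← hx, zero_mul, mul_zero, zero_div]
  · intro x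
    refine (Fs_close K hB hF hRad (fun i => (hA i).pos) h1 (fun i => (hA i).up) hac
      (by positivity) x).trans ?_
    have : ρ₁ * (δ * N) = δ * (ρ₁ * N) := by ring
    rw [this]
    exact d5.le
  · intro h4 x
    exact Fs_norm_lt K hB hF hRad h4 x

omit [T2Space X] in
/-- boxes from parametrizations -/
theorem exists_box {F : X → E n} {x : X} {ρ₁ α r : ℝ} {A : E n → X} (hA0 : A 0 = x)
    (hAd : LD n A 0) (hα : 0 < α) (hr : 0 < r)
    (h : ∀ p q : E n, ‖p‖ ≤ r → ‖q‖ ≤ r → α * ‖p - q‖ ≤ ‖F (A p) - F (A q)‖ ∧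
      ‖F (A p) - F (A q)‖ ≤ ρ₁ * (α * ‖p - q‖)) :
    ∃ (B : E n → X) (b : ℝ), B 0 = x ∧ Box B ∧ BLip F ρ₁ B b := by
  obtain ⟨s, hs, hsi⟩ := hAd.eventually_injOn
  obtain ⟨t, ht, hts⟩ := Metric.eventually_nhds_iff_ball.1 (hAd.eventually.and
    (show ∀ᶠ y in 𝓝 (0 : E n), y ∈ s from hs))
  obtain ⟨τ, hτ⟩ : ∃ τ, τ = min (t / 4) (r / 4) := ⟨_, rfl⟩
  have hτ0 : 0 < τ := by rw [hτ]; exact lt_min (by linarith) (by linarith)
  have hτt : τ ≤ t / 4 := by rw [hτ]; exact min_le_left _ _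
  have hτr : τ ≤ r / 4 := by rw [hτ]; exact min_le_right _ _
  have hnm : ∀ z ∈ closedBall (0 : E n) 2, ‖τ • z‖ ≤ 2 * τ := by
    intro z hz
    rw [mem_closedBall_zero_iff] at hz
    rw [norm_smul, Real.norm_of_nonneg hτ0.le]
    nlinarith
  refine ⟨fun z => A (τ • z), α * τ, by simp only [smul_zero]; exact hA0, ⟨?_, ?_⟩, ⟨?_, ?_, ?_⟩⟩
  · intro z hz w hw hzw
    have h1 := (hts (τ • z) (by rw [mem_ball_zero_iff]; linarith [hnm z hz])).2
    have h2 := (hts (τ • w) (by rw [mem_ball_zero_iff]; linarith [hnm w hw])).2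
    exact smul_right_injective _ hτ0.ne' (hsi h1 h2 hzw)
  · intro z hz
    have h1 := (hts (τ • z) (by rw [mem_ball_zero_iff]; linarith [hnm z hz])).1
    have h2 : LD n (fun y : E n => τ • y) z :=
      LD_linear (ContinuousLinearEquiv.smulLeft (Units.mk0 τ hτ0.ne')) z
    exact LD.comp_fun (g := A) (f := fun y : E n => τ • y) h1 h2
  · positivity
  · intro p hp q hq
    have h1 := (h (τ • p) (τ • q) (by linarith [hnm p hp]) (by linarith [hnm q hq])).1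
    rw [← smul_sub, norm_smul, Real.norm_of_nonneg hτ0.le] at h1
    linarith
  · intro p hp q hq
    have h1 := (h (τ • p) (τ • q) (by linarith [hnm p hp]) (by linarith [hnm q hq])).2
    rw [← smul_sub, norm_smul, Real.norm_of_nonneg hτ0.le] at h1
    refine h1.trans (le_of_eq (by ring))

/-- **Smoothing**, with the condition at the points of a compact set. -/
theorem smoothing' (F : X → E n) (hF : Continuous F) {ρ₁ : ℝ} (h1 : 1 ≤ ρ₁) (h2 : ρ₁ < 2)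
    (h3 : (ρ₁ ^ 2 - 1) * Real.sqrt n < 2 * ρ₁) (hK : IsCompact {x | ¬ LD n F x})
    (hbl : ∀ x, ¬ LD n F x → ∃ A : E n → X, A 0 = x ∧ LD n A 0 ∧ ∃ α r : ℝ, 0 < α ∧ 0 < r ∧
      ∀ p q : E n, ‖p‖ ≤ r → ‖q‖ ≤ r → α * ‖p - q‖ ≤ ‖F (A p) - F (A q)‖ ∧
        ‖F (A p) - F (A q)‖ ≤ ρ₁ * (α * ‖p - q‖)) {ε₀ : ℝ} (hε₀ : 0 < ε₀) :
    ∃ (F' : X → E n) (C : Set X), IsCompact C ∧ (∀ x, x ∉ C → F' x = F x) ∧
      (∀ x, LD n F' x) ∧ (∀ x, ‖F' x - F x‖ ≤ ε₀) ∧ ((∀ x, ‖F x‖ < 1) → ∀ x, ‖F' x‖ < 1) := by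
  have h4 : ∀ x, ¬ LD n F x → ∃ (B : E n → X) (b : ℝ), B 0 = x ∧ Box B ∧ BLip F ρ₁ B b := by
    intro x hx
    obtain ⟨A, hA0, hAd, α, r, hα, hr, h⟩ := hbl x hx
    exact exists_box hA0 hAd hα hr h
  choose! B b hB0 hB hBL using h4
  have hU : ∀ x (hx : x ∈ {x | ¬ LD n F x}), B x '' ball 0 (1 / 2) ∈ 𝓝 x := by
    intro x hx
    have h2 : LD n (B x) 0 := (hB x hx).ld 0 (by simp)
    have h3 := h2.image_mem_nhds (ball_mem_nhds (0 : E n) (by norm_num : (0 : ℝ) < 1 / 2))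
    rwa [hB0 x hx] at h3
  obtain ⟨t, ht⟩ := hK.elim_nhds_subcover' (fun x _ => B x '' ball 0 (1 / 2)) hU
  obtain ⟨F', g1, g2, g3, g4⟩ := smoothing (N := t.card) F hF h1 h2 h3
    (fun j => B ((t.equivFin.symm j).1 : X)) (fun j => b ((t.equivFin.symm j).1 : X))
    (fun j => hB _ (t.equivFin.symm j).1.2) (fun j => hBL _ (t.equivFin.symm j).1.2) (by
      intro x hx
      have h2 := ht hx
      rw [mem_iUnion₂] at h2
      obtain ⟨y, hy, hxy⟩ := h2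
      exact ⟨t.equivFin ⟨y, hy⟩, by simpa using hxy⟩) hε₀
  refine ⟨F', ⋃ j : Fin t.card, B ((t.equivFin.symm j).1 : X) '' closedBall 0 1, ?_, ?_, g2, g3, g4⟩
  · apply isCompact_iUnion
    intro j
    exact box_isCompact (hB _ (t.equivFin.symm j).1.2) (by norm_num)
  · intro x hx
    apply g1
    intro j hj
    exact hx (mem_iUnion.2 ⟨j, hj⟩)

end Pool.Agent.U211.BL
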