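import Pool.Agent.Y522.Stm6
import Pool.Agent.Y522.Tools

/-!
# Radial smoothing kernels whose gradient is supported in a thin shell
-/

set_option autoImplicit false

open Set Filter Topology Metric Function MeasureTheory
open scoped Manifold ContDiff

noncomputable section

namespace Pool.Agent.U211.BL

open Pool.Agent.Y522

/-- a smooth radial kernel of integral one on the unit ball; its gradient at `s` is `-g(s) s`, where
`g ≥ 0` is supported in the shell `r ≤ |s| ≤ 1` -/
structure Ker (n : ℕ) (r : ℝ) where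
  /-- the kernel -/
  k : E n → ℝ
  /-- the density of the gradient -/
  g : E n → ℝ
  smooth : ContDiff ℝ ∞ k
  nonneg : ∀ s, 0 ≤ k s
  zero : ∀ s, 1 ≤ ‖s‖ → k s = 0
  int : ∫ s, k s = 1
  rad : ∀ s t : E n, ‖s‖ = ‖t‖ → k s = k t
  gcont : Continuous g
  gnonneg : ∀ s, 0 ≤ g s
  gzero : ∀ s, 1 < ‖s‖ → g s = 0
  gin : ∀ s, ‖s‖ < r → g s = 0
  grad : ∀ s t : E n, ‖s‖ = ‖t‖ → g s = g t
  der : ∀ s v, fderiv ℝ k s v = -(g s * inner ℝ s v)

theorem compactSupport_of {n : ℕ} {f : E n → ℝ} (h : ∀ s, 1 < ‖s‖ → f s = 0) :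
    HasCompactSupport f := by
  apply HasCompactSupport.of_support_subset_isCompact (isCompact_closedBall (0 : E n) 1)
  intro s hs
  rw [mem_closedBall_zero_iff]
  by_contra h1
  exact hs (h s (not_le.1 h1))

theorem exists_ker (n : ℕ) {r : ℝ} (h0 : 0 < r) (h1 : r < 1) : Nonempty (Ker n r) := by
  have hd : 0 < 1 - r ^ 2 := by nlinarith
  obtain ⟨φ, hφ⟩ : ∃ φ : ℝ → ℝ, φ = fun x => Real.smoothTransition ((1 - x) / (1 - r ^ 2)) :=
    ⟨_, rfl⟩
  have hφs : ContDiff ℝ ∞ φ := by
    rw [hφ]
    apply Real.smoothTransition.contDiff.comp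
    fun_prop
  have hφ0 : ∀ x, 1 ≤ x → φ x = 0 := by
    intro x hx
    rw [hφ]
    apply Real.smoothTransition.zero_of_nonpos
    apply div_nonpos_of_nonpos_of_nonneg _ hd.le
    linarith
  have hφ1 : ∀ x, x ≤ r ^ 2 → φ x = 1 := by
    intro x hx
    rw [hφ]
    apply Real.smoothTransition.one_of_one_le
    rw [le_div_iff₀ hd]
    linarith
  have hφn : ∀ x, 0 ≤ φ x := by
    intro x
    rw [hφ]
    exact Real.smoothTransition.nonneg _
  have hφm : Antitone φ := by
    intro x y hxy
    rw [hφ]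
    apply Real.smoothTransition.monotone
    apply div_le_div_of_nonneg_right _ hd.le
    linarith
  have hφd : ∀ x, deriv φ x ≤ 0 := fun x => hφm.deriv_nonpos
  have hφd0 : ∀ x, 1 < x → deriv φ x = 0 := by
    intro x hx
    have h2 : φ =ᶠ[𝓝 x] fun _ => 0 := by
      filter_upwards [lt_mem_nhds hx] with y hy
      exact hφ0 y (le_of_lt hy)
    rw [h2.deriv_eq, deriv_const]
  have hφd1 : ∀ x, x < r ^ 2 → deriv φ x = 0 := by
    intro x hx
    have h2 : φ =ᶠ[𝓝 x] fun _ => 1 := by
      filter_upwards [gt_mem_nhds hx] with y hy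
      exact hφ1 y (le_of_lt hy)
    rw [h2.deriv_eq, deriv_const]
  obtain ⟨k0, hk0⟩ : ∃ k0 : E n → ℝ, k0 = fun s => φ (‖s‖ ^ 2) := ⟨_, rfl⟩
  have hk0s : ContDiff ℝ ∞ k0 := by
    rw [hk0]
    exact hφs.comp (contDiff_norm_sq ℝ)
  have hk0z : ∀ s : E n, 1 ≤ ‖s‖ → k0 s = 0 := by
    intro s hs
    rw [hk0]
    apply hφ0
    nlinarith
  have hint : Integrable k0 := hk0s.continuous.integrable_of_hasCompactSupport
    (compactSupport_of fun s hs => hk0z s hs.le)
  have hC : 0 < ∫ s, k0 s := by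
    rw [integral_pos_iff_support_of_nonneg (fun s => by rw [hk0]; exact hφn _) hint]
    refine (measure_ball_pos volume (0 : E n) h0).trans_le (measure_mono ?_)
    intro s hs
    rw [mem_ball_zero_iff] at hs
    rw [mem_support, hk0]
    change φ (‖s‖ ^ 2) ≠ 0
    rw [hφ1 _ (by nlinarith [norm_nonneg s])]
    norm_num
  obtain ⟨C, hCd⟩ : ∃ C : ℝ, C = ∫ s, k0 s := ⟨_, rfl⟩
  rw [← hCd] at hC
  have hdφ : Continuous (deriv φ) := hφs.continuous_deriv (by simp)
  refine ⟨{ k := fun s => k0 s / C, g := fun s => -(2 * deriv φ (‖s‖ ^ 2)) / C, smooth := ?_,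
            nonneg := ?_, zero := ?_, int := ?_, rad := ?_, gcont := ?_, gnonneg := ?_,
            gzero := ?_, gin := ?_, grad := ?_, der := ?_ }⟩
  · exact hk0s.div_const C
  · intro s
    rw [hk0]
    exact div_nonneg (hφn _) hC.le
  · intro s hs
    show k0 s / C = 0
    rw [hk0z s hs, zero_div]
  · rw [integral_div, ← hCd, div_self hC.ne']
  · intro s t hst
    show k0 s / C = k0 t / C
    rw [hk0]
    simp only [hst]
  · fun_prop
  · intro s
    apply div_nonneg _ hC.le
    linarith [hφd (‖s‖ ^ 2)]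
  · intro s hs
    show -(2 * deriv φ (‖s‖ ^ 2)) / C = 0
    rw [hφd0 _ (by nlinarith)]
    simp
  · intro s hs
    show -(2 * deriv φ (‖s‖ ^ 2)) / C = 0
    rw [hφd1 _ (by nlinarith [norm_nonneg s])]
    simp
  · intro s t hst
    show -(2 * deriv φ (‖s‖ ^ 2)) / C = -(2 * deriv φ (‖t‖ ^ 2)) / C
    rw [hst]
  · intro s v
    have h3 : HasFDerivAt k0 (deriv φ (‖s‖ ^ 2) • (2 • innerSL ℝ s)) s := by
      have h4 : HasFDerivAt (fun x : E n => ‖x‖ ^ 2) (2 • innerSL ℝ s) s :=
        (hasStrictFDerivAt_norm_sq s).hasFDerivAt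
      have h5 : HasDerivAt φ (deriv φ (‖s‖ ^ 2)) (‖s‖ ^ 2) :=
        (hφs.differentiable (by simp)).differentiableAt.hasDerivAt
      rw [hk0]
      exact h5.comp_hasFDerivAt s h4
    have h6 : HasFDerivAt (fun s => k0 s / C) (C⁻¹ • (deriv φ (‖s‖ ^ 2) • (2 • innerSL ℝ s))) s := by
      have := h3.const_mul C⁻¹
      refine this.congr_of_eventuallyEq (Eventually.of_forall fun x => ?_)
      simp [div_eq_inv_mul]
    rw [h6.fderiv]
    simp only [ContinuousLinearMap.smul_apply, innerSL_apply_apply, smul_eq_mul, nsmul_eq_mul]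
    push_cast
    field_simp

namespace Ker

variable {n : ℕ} {r : ℝ} (K : Ker n r)

theorem cont : Continuous K.k := K.smooth.continuous

theorem lt {s : E n} (hs : K.k s ≠ 0) : ‖s‖ < 1 := by
  by_contra h
  exact hs (K.zero s (not_lt.1 h))

theorem integrable : Integrable K.k :=
  K.cont.integrable_of_hasCompactSupport (compactSupport_of fun s hs => K.zero s hs.le)

theorem gsupp : HasCompactSupport K.g := compactSupport_of K.gzero

theorem g_mul_integrable {f : E n → ℝ} (hf : ContinuousOn f (closedBall 0 1)) :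
    Integrable fun s => K.g s * f s := by
  have h1 : IntegrableOn (fun s => K.g s * f s) (closedBall (0 : E n) 1) :=
    (K.gcont.continuousOn.mul hf).integrableOn_compact (isCompact_closedBall _ _)
  rwa [integrableOn_iff_integrable_of_support_subset] at h1
  intro s hs
  rw [mem_closedBall_zero_iff]
  by_contra h
  apply hs
  change K.g s * f s = 0
  rw [K.gzero s (not_le.1 h), zero_mul]

/-- integration by parts -/
theorem int_sq (v : E n) : ∫ s, K.g s * (inner ℝ s v) ^ 2 = ‖v‖ ^ 2 := by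
  have hf : ∀ s : E n, HasFDerivAt (fun x : E n => inner ℝ x v) (innerSL ℝ v) s := by
    intro s
    have : (fun x : E n => inner ℝ x v) = fun x => innerSL ℝ v x := by
      funext x
      rw [innerSL_apply_apply, real_inner_comm]
    rw [this]
    exact (innerSL ℝ v).hasFDerivAt
  have hd : ∀ s : E n, fderiv ℝ (fun x : E n => (inner ℝ x v : ℝ)) s v = ‖v‖ ^ 2 := by
    intro s
    rw [(hf s).fderiv, innerSL_apply_apply, real_inner_self_eq_norm_sq]
  have hKd : Differentiable ℝ K.k := K.smooth.differentiable (by simp)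
  have key := integral_mul_fderiv_eq_neg_fderiv_mul_of_integrable (μ := (volume : Measure (E n)))
    (f := fun x : E n => (inner ℝ x v : ℝ)) (g := K.k) (v := v) ?_ ?_ ?_
    (fun x _ => (hf x).differentiableAt) (fun x _ => hKd x)
  · simp only [hd, K.der] at key
    rw [integral_const_mul, K.int, mul_one] at key
    have h1 : ∀ x : E n, (inner ℝ x v : ℝ) * -(K.g x * inner ℝ x v) = -(K.g x * (inner ℝ x v) ^ 2) := by
      intro x; ring
    simp only [h1] at key
    rw [integral_neg] at key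
    linarith
  · simp only [hd]
    exact K.integrable.const_mul _
  · simp only [K.der]
    have h1 : ∀ x : E n, (inner ℝ x v : ℝ) * -(K.g x * inner ℝ x v) = K.g x * (-(inner ℝ x v) ^ 2) := by
      intro x; ring
    simp only [h1]
    apply K.g_mul_integrable
    fun_prop
  · apply Continuous.integrable_of_hasCompactSupport
    · exact (by fun_prop : Continuous fun x : E n => (inner ℝ x v : ℝ)).mul K.cont
    · apply compactSupport_of
      intro s hs
      show (inner ℝ s v : ℝ) * K.k s = 0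
      rw [K.zero s hs.le, mul_zero]

theorem int_norm_sq : ∫ s, K.g s * ‖s‖ ^ 2 = n := by
  let b := EuclideanSpace.basisFun (Fin n) ℝ
  have h1 : ∀ s : E n, K.g s * ‖s‖ ^ 2 = ∑ i, K.g s * (inner ℝ s (b i)) ^ 2 := by
    intro s
    rw [← Finset.mul_sum, EuclideanSpace.norm_sq_eq]
    congr 1
    apply Finset.sum_congr rfl
    intro i _
    rw [Real.norm_eq_abs, sq_abs]
    congr 1
    rw [EuclideanSpace.basisFun_apply, EuclideanSpace.inner_single_right]
    simp
  simp only [h1]
  rw [integral_finsetSum]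
  · have h2 : ∀ i, ∫ s, K.g s * (inner ℝ s (b i)) ^ 2 = 1 := by
      intro i
      rw [K.int_sq, b.orthonormal.1 i, one_pow]
    simp only [h2]
    simp
  · intro i _
    apply K.g_mul_integrable
    fun_prop

/-- the first moment of the gradient -/
theorem int_abs_le (hr : 0 < r) {w : E n} (hw : ‖w‖ = 1) :
    ∫ s, K.g s * |inner ℝ s w| ≤ Real.sqrt n / r := by
  have hn : 0 < n := by
    rcases Nat.eq_zero_or_pos n with h | h
    · subst h
      have : w = 0 := Subsingleton.elim _ _
      rw [this, norm_zero] at hw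
      norm_num at hw
    · exact h
  have hn' : (0 : ℝ) < n := by exact_mod_cast hn
  have hsq : 0 < Real.sqrt n := Real.sqrt_pos.2 hn'
  have hsq2 : Real.sqrt n ^ 2 = n := Real.sq_sqrt hn'.le
  have hle : ∀ s : E n, K.g s * |inner ℝ s w| ≤
      (Real.sqrt n / (2 * r)) * (K.g s * (inner ℝ s w) ^ 2) +
        (1 / (2 * r * Real.sqrt n)) * (K.g s * ‖s‖ ^ 2) := by
    intro s
    by_cases hs : K.g s = 0
    · rw [hs]
      simp
    · have hrs : r ≤ ‖s‖ := by
        by_contra h
        exact hs (K.gin s (not_le.1 h))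
      have h2 : r * |inner ℝ s w| ≤ Real.sqrt n / 2 * (inner ℝ s w) ^ 2 +
          1 / (2 * Real.sqrt n) * ‖s‖ ^ 2 := by
        have h3 : r * |inner ℝ s w| ≤ ‖s‖ * |inner ℝ s w| :=
          mul_le_mul_of_nonneg_right hrs (abs_nonneg _)
        refine h3.trans ?_
        have h4 : 0 ≤ (Real.sqrt n * |inner ℝ s w| - ‖s‖) ^ 2 := sq_nonneg _
        have h5 : |(inner ℝ s w : ℝ)| ^ 2 = (inner ℝ s w) ^ 2 := sq_abs _
        rw [← h5]
        have h6 : Real.sqrt n / 2 * |inner ℝ s w| ^ 2 + 1 / (2 * Real.sqrt n) * ‖s‖ ^ 2 -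
            ‖s‖ * |inner ℝ s w| = (Real.sqrt n * |inner ℝ s w| - ‖s‖) ^ 2 / (2 * Real.sqrt n) := by
          field_simp
          ring
        have h7 : 0 ≤ (Real.sqrt n * |inner ℝ s w| - ‖s‖) ^ 2 / (2 * Real.sqrt n) :=
          div_nonneg h4 (by positivity)
        linarith
      have h8 := mul_le_mul_of_nonneg_left h2 (K.gnonneg s)
      have h9 : K.g s * |inner ℝ s w| = (K.g s * (r * |inner ℝ s w|)) / r := by
        field_simp
      rw [h9, div_le_iff₀ hr]
      refine h8.trans (le_of_eq ?_)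
      field_simp
  have hi1 : Integrable fun s => K.g s * (inner ℝ s w : ℝ) ^ 2 :=
    K.g_mul_integrable (by fun_prop)
  have hi2 : Integrable fun s : E n => K.g s * ‖s‖ ^ 2 := K.g_mul_integrable (by fun_prop)
  have hi3 : Integrable fun s => K.g s * |(inner ℝ s w : ℝ)| :=
    K.g_mul_integrable (by fun_prop)
  calc ∫ s, K.g s * |inner ℝ s w|
      ≤ ∫ s, ((Real.sqrt n / (2 * r)) * (K.g s * (inner ℝ s w) ^ 2) +
        (1 / (2 * r * Real.sqrt n)) * (K.g s * ‖s‖ ^ 2)) :=
        integral_mono hi3 ((hi1.const_mul _).add (hi2.const_mul _)) hle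
    _ = (Real.sqrt n / (2 * r)) * 1 + (1 / (2 * r * Real.sqrt n)) * n := by
        rw [integral_add (hi1.const_mul _) (hi2.const_mul _), integral_const_mul,
          integral_const_mul, K.int_sq, K.int_norm_sq, hw, one_pow]
    _ = Real.sqrt n / r := by
        field_simp
        rw [hsq2]
        ring

end Ker

end Pool.Agent.U211.BL
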