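import Pool.Agent.U211.BL.Wt

/-!
# The mollified maps on the manifold
-/

set_option autoImplicit false

open Set Filter Topology Metric Function MeasureTheory
open scoped Manifold ContDiff

noncomputable section

namespace Pool.Agent.U211.BL

open Pool.Agent.Y522

variable {n : ℕ} {X : Type} [TopologicalSpace X] [ChartedSpace (E n) X]

/-- the profile of the radius -/
def rr (ψ : X → ℝ) (B : E n → X) (z : E n) : ℝ := ψ (B z) * t0 n z

theorem rr_smooth {ψ : X → ℝ} (hψ : ∀ x, ContMDiffAt (𝓡 n) 𝓘(ℝ, ℝ) ∞ ψ x) {B : E n → X}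
    (hB : Box B) : ContDiff ℝ ∞ (rr ψ B) := by
  rw [contDiff_iff_contDiffAt]
  intro z
  rcases le_or_gt ‖z‖ (3 / 2) with h | h
  · exact (smooth_in_box hB (by linarith) (hψ _)).mul (t0 n).contDiff.contDiffAt
  · have hev : rr ψ B =ᶠ[𝓝 z] fun _ => 0 := by
      filter_upwards [continuous_norm.continuousAt.eventually_const_lt h] with y hy
      unfold rr
      rw [t0_zero (by linarith), mul_zero]
    exact contDiffAt_const.congr_of_eventuallyEq hev

omit [TopologicalSpace X] [ChartedSpace (E n) X] in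
theorem rr_nonneg {ψ : X → ℝ} (hψ : ∀ x, 0 ≤ ψ x) (B : E n → X) (z : E n) : 0 ≤ rr ψ B z :=
  mul_nonneg (hψ _) (t0 n).nonneg

omit [TopologicalSpace X] [ChartedSpace (E n) X] in
theorem rr_le {ψ : X → ℝ} (hψ : ∀ x, 0 ≤ ψ x) {C : ℝ} (hC : ∀ x, ψ x ≤ C) (B : E n → X) (z : E n) :
    rr ψ B z ≤ C := by
  unfold rr
  calc ψ (B z) * t0 n z ≤ ψ (B z) * 1 := mul_le_mul_of_nonneg_left (t0 n).le_one (hψ _)
    _ ≤ C := by rw [mul_one]; exact hC _

omit [TopologicalSpace X] [ChartedSpace (E n) X] in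
theorem rr_zero (ψ : X → ℝ) (B : E n → X) {z : E n} (hz : 1 ≤ ‖z‖) : rr ψ B z = 0 := by
  unfold rr
  rw [t0_zero hz, mul_zero]

omit [TopologicalSpace X] [ChartedSpace (E n) X] in
theorem rr_one (ψ : X → ℝ) (B : E n → X) {z : E n} (hz : ‖z‖ ≤ 3 / 4) : rr ψ B z = ψ (B z) := by
  unfold rr
  rw [t0_one hz, mul_one]

theorem rr_lip {ψ : X → ℝ} (hψ : ∀ x, ContMDiffAt (𝓡 n) 𝓘(ℝ, ℝ) ∞ ψ x) {B : E n → X}
    (hB : Box B) : ∃ Λ : ℝ, 0 ≤ Λ ∧ ∀ y z, |rr ψ B y - rr ψ B z| ≤ Λ * ‖y - z‖ := by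
  obtain ⟨C, hC⟩ : ∃ C : NNReal, LipschitzWith C (rr ψ B) := by
    refine (rr_smooth hψ hB).lipschitzWith_of_hasCompactSupport ?_ (by simp)
    exact compactSupport_of fun s hs => rr_zero ψ B hs.le
  refine ⟨C, C.coe_nonneg, fun y z => ?_⟩
  have h2 := hC.dist_le_mul y z
  rwa [Real.dist_eq, dist_eq_norm] at h2

variable {r₀ : ℝ} (K : Ker n r₀)

/-- the mollified map -/
def Mi (B : E n → X) (F : X → E n) (c : E n → ℝ) (x : X) : E n :=
  open Classical in if x ∈ B '' closedBall 0 1 then Mol K (fun z => F (B z)) c (iv B x) else F x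

omit [TopologicalSpace X] [ChartedSpace (E n) X] in
theorem Mi_off {B : E n → X} {F : X → E n} {c : E n → ℝ} {x : X} (hx : x ∉ B '' closedBall 0 1) :
    Mi K B F c x = F x := by
  unfold Mi
  rw [if_neg hx]

theorem Mi_of {B : E n → X} (hB : Box B) {F : X → E n} {c : E n → ℝ}
    (hc : ∀ z, 1 ≤ ‖z‖ → c z = 0) {z : E n} (hz : ‖z‖ ≤ 2) :
    Mi K B F c (B z) = Mol K (fun z => F (B z)) c z := by
  unfold Mi
  rcases le_or_gt ‖z‖ 1 with h | h
  · rw [if_pos ⟨z, by simpa using h, rfl⟩, iv_of hB hz]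
  · rw [if_neg (not_mem_of hB (by norm_num) hz h), moll_const K (hc z h.le)]

/-- near a point of the box -/
theorem Mi_near {B : E n → X} (hB : Box B) {F : X → E n} {c : E n → ℝ}
    (hc : ∀ z, 1 ≤ ‖z‖ → c z = 0) {z : E n} (hz : ‖z‖ < 2) :
    Mi K B F c =ᶠ[𝓝 (B z)] fun y => Mol K (fun z => F (B z)) c (iv B y) := by
  filter_upwards [(box_isOpen hB isOpen_ball ball_subset_closedBall).mem_nhds
    ⟨z, by simpa using hz, rfl⟩] with y hy
  obtain ⟨w, hw, rfl⟩ := hy
  rw [mem_ball_zero_iff] at hw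
  rw [Mi_of K hB hc hw.le, iv_of hB hw.le]

theorem F_near {B : E n → X} (hB : Box B) {F : X → E n} {z : E n} (hz : ‖z‖ < 2) :
    F =ᶠ[𝓝 (B z)] fun y => F (B (iv B y)) := by
  filter_upwards [(box_isOpen hB isOpen_ball ball_subset_closedBall).mem_nhds
    ⟨z, by simpa using hz, rfl⟩] with y hy
  obtain ⟨w, hw, rfl⟩ := hy
  rw [mem_ball_zero_iff] at hw
  rw [iv_of hB hw.le]

/-- smoothness of a map to `E n` -/
abbrev Sm (n : ℕ) {X : Type} [TopologicalSpace X] [ChartedSpace (E n) X] (f : X → E n) (x : X) :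
    Prop := ContMDiffAt (𝓡 n) (𝓡 n) ∞ f x

/-- conditions on the radius function -/
structure Rad (c : E n → ℝ) : Prop where
  smooth : ContDiff ℝ ∞ c
  nonneg : ∀ z, 0 ≤ c z
  le : ∀ z, c z ≤ 1 / 4
  zero : ∀ z, 1 ≤ ‖z‖ → c z = 0

theorem contOn {B : E n → X} (hB : Box B) {F : X → E n} (hF : Continuous F) :
    ContinuousOn (fun z => F (B z)) (closedBall 0 2) :=
  hF.comp_continuousOn (box_contOn hB)

theorem Mi_smooth_pos {B : E n → X} (hB : Box B) {F : X → E n} (hF : Continuous F) {c : E n → ℝ}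
    (hc : Rad c) {z : E n} (hz : 0 < c z) : Sm n (Mi K B F c) (B z) := by
  have hz1 : ‖z‖ < 1 := by
    by_contra h
    rw [hc.zero z (not_lt.1 h)] at hz
    exact lt_irrefl _ hz
  have h1 : ContDiffAt ℝ ∞ (Mol K (fun z => F (B z)) c) z :=
    moll_pos K (contOn hB hF) hc.smooth hc.le (fun z hz => hc.zero z hz.le) hz
  have h2 : ContMDiffAt (𝓡 n) (𝓡 n) ∞ (Mol K (fun z => F (B z)) c) (iv B (B z)) := by
    rw [iv_of hB (by linarith)]
    exact contMDiffAt_iff_contDiffAt.2 h1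
  have h3 : ContMDiffAt (𝓡 n) (𝓡 n) ∞ (fun y => Mol K (fun z => F (B z)) c (iv B y)) (B z) :=
    h2.comp (B z) (iv_ld hB (by linarith)).contMDiffAt
  exact h3.congr_of_eventuallyEq (Mi_near K hB hc.zero (by linarith))

theorem ev_smooth {B : E n → X} (hB : Box B) {F : X → E n} {z : E n} (hz : ‖z‖ < 2)
    (h : LD n F (B z)) : ∀ᶠ y in 𝓝 z, ContDiffAt ℝ ∞ (fun z => F (B z)) y := by
  have h1 : LD n (fun z => F (B z)) z := LD.comp_fun h (hB.ld z (by simpa using hz.le))
  filter_upwards [h1.eventually] with y hy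
  exact hy.contDiffAt

theorem Mi_smooth_LD [T2Space X] {B : E n → X} (hB : Box B) {F : X → E n} (hF : Continuous F)
    {c : E n → ℝ} (hc : Rad c) {x : X} (hx : LD n F x) : Sm n (Mi K B F c) x := by
  by_cases hxB : x ∈ B '' ball 0 2
  · obtain ⟨z, hz, rfl⟩ := hxB
    rw [mem_ball_zero_iff] at hz
    rcases (hc.nonneg z).lt_or_eq with h | h
    · exact Mi_smooth_pos K hB hF hc h
    · have h1 : ContDiffAt ℝ ∞ (Mol K (fun z => F (B z)) c) z :=
        (moll_null K hc.smooth hc.nonneg h.symm (ev_smooth hB hz hx)).1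
      have h2 : ContMDiffAt (𝓡 n) (𝓡 n) ∞ (Mol K (fun z => F (B z)) c) (iv B (B z)) := by
        rw [iv_of hB hz.le]
        exact contMDiffAt_iff_contDiffAt.2 h1
      have h3 : ContMDiffAt (𝓡 n) (𝓡 n) ∞ (fun y => Mol K (fun z => F (B z)) c (iv B y)) (B z) :=
        h2.comp (B z) (iv_ld hB hz).contMDiffAt
      exact h3.congr_of_eventuallyEq (Mi_near K hB hc.zero hz)
  · have hx1 : x ∉ B '' closedBall 0 1 := fun h => hxB
      (image_mono (closedBall_subset_ball (by norm_num)) h)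
    have hev : Mi K B F c =ᶠ[𝓝 x] F := by
      filter_upwards [(box_isCompact hB (by norm_num)).isClosed.isOpen_compl.mem_nhds hx1] with y hy
      exact Mi_off K hy
    exact hx.contMDiffAt.congr_of_eventuallyEq hev

/-- the mollified map in another box -/
theorem Mi_tr {A B : E n → X} (hA : Box A) (hB : Box B) {F : X → E n} {c : E n → ℝ}
    (hc : ∀ z, 1 ≤ ‖z‖ → c z = 0) {y z : E n} (hy : ‖y‖ < 2) (hz : ‖z‖ < 2) (h : A y = B z) :
    (fun y => Mi K B F c (A y)) =ᶠ[𝓝 y] fun y => Mol K (fun z => F (B z)) c (tr A B y) := by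
  have h1 := (hA.ld y (by simpa using hy.le)).continuousAt
  have h2 : Mi K B F c =ᶠ[𝓝 (A y)] fun y => Mol K (fun z => F (B z)) c (iv B y) := by
    rw [h]
    exact Mi_near K hB hc hz
  exact h1.eventually h2

theorem F_tr {A B : E n → X} (hA : Box A) (hB : Box B) {F : X → E n} {y z : E n} (hy : ‖y‖ < 2)
    (hz : ‖z‖ < 2) (h : A y = B z) : (fun y => F (A y)) =ᶠ[𝓝 y] fun y => F (B (tr A B y)) := by
  have h1 := (hA.ld y (by simpa using hy.le)).continuousAt
  have h2 : F =ᶠ[𝓝 (A y)] fun y => F (B (iv B y)) := by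
    rw [h]
    exact F_near hB hz
  exact h1.eventually h2

theorem tr_of {A B : E n → X} (hB : Box B) {y z : E n} (hz : ‖z‖ ≤ 2) (h : A y = B z) :
    tr A B y = z := by
  unfold tr
  rw [h, iv_of hB hz]

/-- the derivative where the radius is positive -/
theorem Mi_deriv_pos {A B : E n → X} (hA : Box A) (hB : Box B) {F : X → E n} (hF : Continuous F)
    {c : E n → ℝ} (hc : Rad c) {y z : E n} (hy : ‖y‖ < 2) (h : A y = B z) (hz : 0 < c z) :
    HasFDerivAt (fun y => Mi K B F c (A y))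
      ((fderiv ℝ (Mol K (fun z => F (B z)) c) z).comp (fderiv ℝ (tr A B) y)) y := by
  have hz1 : ‖z‖ < 1 := by
    by_contra h
    rw [hc.zero z (not_lt.1 h)] at hz
    exact lt_irrefl _ hz
  have h1 : ContDiffAt ℝ ∞ (Mol K (fun z => F (B z)) c) z :=
    moll_pos K (contOn hB hF) hc.smooth hc.le (fun z hz => hc.zero z hz.le) hz
  have h2 : HasFDerivAt (Mol K (fun z => F (B z)) c)
      (fderiv ℝ (Mol K (fun z => F (B z)) c) z) (tr A B y) := by
    rw [tr_of hB (by linarith) h]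
    exact (h1.differentiableAt (by simp)).hasFDerivAt
  have h3 : HasFDerivAt (tr A B) (fderiv ℝ (tr A B) y) y :=
    ((tr_ld hA hB hy (by linarith) h).contDiffAt.differentiableAt (by simp)).hasFDerivAt
  exact (h2.comp y h3).congr_of_eventuallyEq (Mi_tr K hA hB hc.zero hy (by linarith) h)

/-- the derivative where the radius is zero -/
theorem Mi_deriv_null [T2Space X] {A B : E n → X} (hA : Box A) (hB : Box B) {F : X → E n}
    {c : E n → ℝ} (hc : Rad c) {y : E n} (hy : ‖y‖ < 2)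
    (hLD : LD n F (A y)) (h0 : ∀ z, A y = B z → c z = 0) :
    HasFDerivAt (fun y => Mi K B F c (A y)) (fderiv ℝ (fun y => F (A y)) y) y := by
  have hFA : HasFDerivAt (fun y => F (A y)) (fderiv ℝ (fun y => F (A y)) y) y :=
    ((ev_smooth hA hy hLD).self_of_nhds.differentiableAt (by simp)).hasFDerivAt
  by_cases hxB : A y ∈ B '' ball 0 2
  · obtain ⟨z, hz, hzy⟩ := hxB
    rw [mem_ball_zero_iff] at hz
    have hLD' : LD n F (B z) := by
      rw [hzy]
      exact hLD
    obtain ⟨h1, h1'⟩ := moll_null K hc.smooth hc.nonneg (h0 z hzy.symm) (ev_smooth hB hz hLD')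
    have h2 : HasFDerivAt (Mol K (fun z => F (B z)) c)
        (fderiv ℝ (fun z => F (B z)) z) (tr A B y) := by
      rw [tr_of hB hz.le hzy.symm, ← h1']
      exact (h1.differentiableAt (by simp)).hasFDerivAt
    have h3 : HasFDerivAt (tr A B) (fderiv ℝ (tr A B) y) y :=
      ((tr_ld hA hB hy hz hzy.symm).contDiffAt.differentiableAt (by simp)).hasFDerivAt
    have h4 := (h2.comp y h3).congr_of_eventuallyEq (Mi_tr K hA hB hc.zero hy hz hzy.symm)
    have h5 : HasFDerivAt (fun z => F (B z)) (fderiv ℝ (fun z => F (B z)) z) (tr A B y) := by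
      rw [tr_of hB hz.le hzy.symm]
      exact ((ev_smooth hB hz hLD').self_of_nhds.differentiableAt (by simp)).hasFDerivAt
    have h6 := (h5.comp y h3).congr_of_eventuallyEq (F_tr hA hB hy hz hzy.symm)
    rw [h6.fderiv]
    exact h4
  · have hx1 : A y ∉ B '' closedBall 0 1 := fun h => hxB
      (image_mono (closedBall_subset_ball (by norm_num)) h)
    have hev : Mi K B F c =ᶠ[𝓝 (A y)] F := by
      filter_upwards [(box_isCompact hB (by norm_num)).isClosed.isOpen_compl.mem_nhds hx1] with y hy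
      exact Mi_off K hy
    exact hFA.congr_of_eventuallyEq ((hA.ld y (by simpa using hy.le)).continuousAt.eventually hev)

/-- the mean of vectors of norm less than one -/
theorem norm_mean_lt {f : E n → E n} (hf : ContinuousOn f (closedBall 0 1))
    (h1 : ∀ s, ‖s‖ ≤ 1 → ‖f s‖ < 1) : ‖∫ s, K.k s • f s‖ < 1 := by
  obtain ⟨s₀, hs₀, hmax⟩ := (isCompact_closedBall (0 : E n) 1).exists_isMaxOn
    ⟨0, mem_closedBall_self (by norm_num)⟩ hf.norm
  have hr : ‖f s₀‖ < 1 := h1 s₀ (by simpa using hs₀)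
  have h2 : ‖∫ s, K.k s • f s‖ ≤ ∫ s, K.k s * ‖f s₀‖ := by
    apply norm_integral_le_of_norm_le (K.integrable.mul_const _)
    apply Eventually.of_forall
    intro s
    rw [norm_smul, Real.norm_of_nonneg (K.nonneg s)]
    by_cases hs : K.k s = 0
    · rw [hs]
      simp
    · have h3 : ‖f s‖ ≤ ‖f s₀‖ := hmax (mem_closedBall_zero_iff.2 (K.lt hs).le)
      exact mul_le_mul_of_nonneg_left h3 (K.nonneg s)
  rw [integral_mul_const, K.int, one_mul] at h2
  linarith

theorem Mi_norm_lt {B : E n → X} (hB : Box B) {F : X → E n} (hF : Continuous F) {c : E n → ℝ}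
    (hc : Rad c) (h1 : ∀ x, ‖F x‖ < 1) (x : X) : ‖Mi K B F c x‖ < 1 := by
  by_cases hx : x ∈ B '' closedBall 0 1
  · obtain ⟨z, hz, rfl⟩ := hx
    rw [mem_closedBall_zero_iff] at hz
    rw [Mi_of K hB hc.zero (by linarith)]
    unfold Mol
    apply norm_mean_lt K
    · refine (contOn hB hF).comp (by fun_prop) ?_
      intro s hs
      exact pt_mem (hc.nonneg z) (hc.le z) (by linarith) (by simpa using hs)
    · intro s _
      exact h1 _
  · rw [Mi_off K hx]
    exact h1 x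

end Pool.Agent.U211.BL
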