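import Pool.Agent.U211.BL.Der2

/-!
# Uniform differentiability of the transition maps
-/

set_option autoImplicit false

open Set Filter Topology Metric Function MeasureTheory
open scoped Manifold ContDiff

noncomputable section

namespace Pool.Agent.U211.BL

open Pool.Agent.Y522

variable {n : ℕ} {X : Type} [TopologicalSpace X] [ChartedSpace (E n) X]

/-- a parametrization of an open subset of `X`, defined and injective on a neighbourhood of the
closed ball of radius two -/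
structure Box (A : E n → X) : Prop where
  inj : InjOn A (closedBall 0 2)
  ld : ∀ z ∈ closedBall (0 : E n) 2, LD n A z

/-- the inverse of a box -/
def iv (B : E n → X) (x : X) : E n := invFunOn B (closedBall (0 : E n) 2) x

theorem iv_of {B : E n → X} (hB : Box B) {z : E n} (hz : ‖z‖ ≤ 2) : iv B (B z) = z :=
  hB.inj.leftInvOn_invFunOn (by simpa using hz)

omit [TopologicalSpace X] [ChartedSpace (E n) X] in
theorem iv_right {B : E n → X} {x : X} {z : E n} (hz : ‖z‖ ≤ 2) (hx : B z = x) :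
    B (iv B x) = x := by
  have h : ∃ y ∈ closedBall (0 : E n) 2, B y = x := ⟨z, by simpa using hz, hx⟩
  exact invFunOn_eq h

theorem iv_ld {B : E n → X} (hB : Box B) {z : E n} (hz : ‖z‖ < 2) : LD n (iv B) (B z) := by
  obtain ⟨p, hp1, hp2, hp3, hp4⟩ := (hB.ld z (by simpa using hz.le)).exists_inverse
  refine hp1.congr ?_
  have h1 : ∀ᶠ w in 𝓝 (B z), ‖p w‖ < 2 := by
    refine hp1.continuousAt.norm.eventually (p := fun r : ℝ => r < 2) ?_
    change ∀ᶠ y in 𝓝 ‖p (B z)‖, y < 2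
    rw [hp2]
    exact gt_mem_nhds hz
  filter_upwards [h1, hp4] with w hw1 hw2
  rw [← hw2, iv_of hB hw1.le, hw2]

theorem box_isOpen {B : E n → X} (hB : Box B) {s : Set (E n)} (hs : IsOpen s)
    (hs2 : s ⊆ closedBall 0 2) : IsOpen (B '' s) :=
  isOpen_image_of_LD hs fun x hx => hB.ld x (hs2 hx)

theorem box_contOn {B : E n → X} (hB : Box B) : ContinuousOn B (closedBall 0 2) :=
  fun z hz => (hB.ld z hz).continuousAt.continuousWithinAt

theorem box_isCompact {B : E n → X} (hB : Box B) {r : ℝ} (hr : r ≤ 2) :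
    IsCompact (B '' closedBall 0 r) :=
  (isCompact_closedBall _ _).image_of_continuousOn
    ((box_contOn hB).mono (closedBall_subset_closedBall hr))

/-- the transition map -/
def tr (A B : E n → X) (y : E n) : E n := iv B (A y)

theorem tr_ld {A B : E n → X} (hA : Box A) (hB : Box B) {y z : E n} (hy : ‖y‖ < 2) (hz : ‖z‖ < 2)
    (h : A y = B z) : LD n (tr A B) y := by
  have h1 : LD n (iv B) (A y) := by
    rw [h]
    exact iv_ld hB hz
  exact LD.comp_fun (g := iv B) (f := A) h1 (hA.ld y (by simpa using hy.le))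

/-- **uniform differentiability of the transition maps** -/
theorem trans_unif [T2Space X] {A B : E n → X} (hA : Box A) (hB : Box B) {ε : ℝ} (hε : 0 < ε) :
    ∃ δ : ℝ, 0 < δ ∧ ∀ y z : E n, ‖y‖ ≤ 1 → ‖z‖ ≤ 1 → A y = B z → ∀ v : E n, ‖v‖ ≤ δ →
      ‖tr A B (y + v)‖ ≤ 2 ∧ B (tr A B (y + v)) = A (y + v) ∧
      ‖tr A B (y + v) - z - fderiv ℝ (tr A B) y v‖ ≤ ε * ‖v‖ := by
  have hcl : IsClosed (B '' closedBall 0 1) := (box_isCompact hB (by norm_num)).isClosed
  have hQ : IsCompact (closedBall (0 : E n) 1 ∩ A ⁻¹' (B '' closedBall 0 1)) := by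
    have h1 : IsClosed (closedBall (0 : E n) 1 ∩ A ⁻¹' (B '' closedBall 0 1)) :=
      ((box_contOn hA).mono (closedBall_subset_closedBall (by norm_num))).preimage_isClosed_of_isClosed
        isClosed_closedBall hcl
    exact (isCompact_closedBall (0 : E n) 1).of_isClosed_subset h1 inter_subset_left
  suffices H : ∃ δ : ℝ, 0 < δ ∧ ∀ y ∈ closedBall (0 : E n) 1 ∩ A ⁻¹' (B '' closedBall 0 1),
      ∀ v : E n, ‖v‖ ≤ δ → ‖tr A B (y + v)‖ ≤ 2 ∧ B (tr A B (y + v)) = A (y + v) ∧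
      ‖tr A B (y + v) - tr A B y - fderiv ℝ (tr A B) y v‖ ≤ ε * ‖v‖ by
    obtain ⟨δ, hδ, h⟩ := H
    refine ⟨δ, hδ, fun y z hy hz hyz v hv => ?_⟩
    have h1 := h y ⟨by simpa using hy, z, by simpa using hz, hyz.symm⟩ v hv
    have h2 : tr A B y = z := by
      unfold tr
      rw [hyz, iv_of hB (by linarith)]
    rwa [h2] at h1
  refine hQ.induction_on (p := fun S => ∃ δ : ℝ, 0 < δ ∧ ∀ y ∈ S,
      ∀ v : E n, ‖v‖ ≤ δ → ‖tr A B (y + v)‖ ≤ 2 ∧ B (tr A B (y + v)) = A (y + v) ∧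
      ‖tr A B (y + v) - tr A B y - fderiv ℝ (tr A B) y v‖ ≤ ε * ‖v‖) ?_ ?_ ?_ ?_
  · exact ⟨1, one_pos, fun y hy => hy.elim⟩
  · rintro S T hST ⟨δ, hδ, h⟩
    exact ⟨δ, hδ, fun y hy => h y (hST hy)⟩
  · rintro S T ⟨δ, hδ, h⟩ ⟨δ', hδ', h'⟩
    refine ⟨min δ δ', lt_min hδ hδ', fun y hy v hv => ?_⟩
    rcases hy with hy | hy
    · exact h y hy v (hv.trans (min_le_left _ _))
    · exact h' y hy v (hv.trans (min_le_right _ _))
  · rintro y₀ ⟨hy₀, z₀, hz₀, hyz₀⟩
    rw [mem_closedBall_zero_iff] at hy₀ hz₀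
    have hld : LD n (tr A B) y₀ := tr_ld hA hB (by linarith) (by linarith) hyz₀.symm
    have hcd : ContDiffAt ℝ ∞ (tr A B) y₀ := hld.contDiffAt
    have hst := hcd.hasStrictFDerivAt (by simp)
    have hε2 : 0 < ε / 2 := by positivity
    obtain ⟨s, hs1, hs2⟩ := hst.approximates_deriv_on_nhds
      (c := ⟨ε / 2, hε2.le⟩) (Or.inr (by exact_mod_cast hε2))
    have hcont : ContinuousAt (fderiv ℝ (tr A B)) y₀ :=
      (hcd.fderiv_right (m := 0) (by simp)).continuousAt
    have h2 : ∀ᶠ y in 𝓝 y₀, ‖fderiv ℝ (tr A B) y - fderiv ℝ (tr A B) y₀‖ < ε / 2 := by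
      have := Metric.tendsto_nhds.1 hcont.tendsto (ε / 2) hε2
      filter_upwards [this] with y hy
      rwa [dist_eq_norm] at hy
    have h3 : ∀ᶠ y in 𝓝 y₀, ‖y‖ < 2 ∧ A y ∈ B '' ball 0 2 := by
      have h4 : ∀ᶠ y in 𝓝 y₀, ‖y‖ < 2 :=
        continuous_norm.continuousAt.eventually_lt_const (by linarith)
      have h5 : ∀ᶠ y in 𝓝 y₀, A y ∈ B '' ball 0 2 := by
        apply (hA.ld y₀ (by simpa using by linarith)).continuousAt
        apply (box_isOpen hB isOpen_ball ball_subset_closedBall).mem_nhds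
        exact ⟨z₀, by rw [mem_ball_zero_iff]; linarith, hyz₀⟩
      exact h4.and h5
    obtain ⟨r, hr, hball⟩ := Metric.eventually_nhds_iff_ball.1
      ((show ∀ᶠ y in 𝓝 y₀, y ∈ s from hs1).and (h2.and h3))
    refine ⟨ball y₀ (r / 2), mem_nhdsWithin_of_mem_nhds (ball_mem_nhds _ (by positivity)), r / 4,
      by positivity, fun y hy v hv => ?_⟩
    rw [mem_ball] at hy
    have hy1 : y ∈ ball y₀ r := by rw [mem_ball]; linarith
    have hyv : y + v ∈ ball y₀ r := by
      rw [mem_ball, dist_eq_norm] at *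
      have h6 : y + v - y₀ = (y - y₀) + v := by abel
      rw [h6]
      have := norm_add_le (y - y₀) v
      linarith
    obtain ⟨a1, a2, a3, a4⟩ := hball y hy1
    obtain ⟨b1, -, b3, z, hz, hzv⟩ := hball (y + v) hyv
    rw [mem_ball_zero_iff] at hz
    have h7 : tr A B (y + v) = z := by
      unfold tr
      rw [← hzv, iv_of hB hz.le]
    refine ⟨by rw [h7]; exact hz.le, by rw [h7]; exact hzv, ?_⟩
    have h8 := hs2 (y + v) b1 y a1
    rw [add_sub_cancel_left] at h8
    have h9 : tr A B (y + v) - tr A B y - fderiv ℝ (tr A B) y v =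
        (tr A B (y + v) - tr A B y - fderiv ℝ (tr A B) y₀ v) -
          (fderiv ℝ (tr A B) y - fderiv ℝ (tr A B) y₀) v := by
      simp only [_root_.sub_apply]
      abel
    rw [h9]
    have h10 : ‖(fderiv ℝ (tr A B) y - fderiv ℝ (tr A B) y₀) v‖ ≤ ε / 2 * ‖v‖ := by
      refine (ContinuousLinearMap.le_opNorm _ _).trans ?_
      exact mul_le_mul_of_nonneg_right a2.le (norm_nonneg _)
    have h11 : ‖tr A B (y + v) - tr A B y - fderiv ℝ (tr A B) y₀ v‖ ≤ ε / 2 * ‖v‖ := h8
    refine (norm_sub_le _ _).trans ?_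
    linarith

end Pool.Agent.U211.BL
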