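import Pool.Agent.U211.BL.Trans

/-!
# Weights subordinate to finitely many boxes
-/

set_option autoImplicit false

open Set Filter Topology Metric Function MeasureTheory
open scoped Manifold ContDiff

noncomputable section

namespace Pool.Agent.U211.BL

open Pool.Agent.Y522

variable {n : ℕ} {X : Type} [TopologicalSpace X] [ChartedSpace (E n) X]

/-- the function `f`, supported in the unit ball, transported to `X` with the box `B` -/
def lf (B : E n → X) (f : E n → ℝ) (x : X) : ℝ :=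
  open Classical in if x ∈ B '' closedBall 0 1 then f (iv B x) else 0

theorem not_mem_of {B : E n → X} (hB : Box B) {z : E n} {r : ℝ} (_hr : r ≤ 2) (hz : ‖z‖ ≤ 2)
    (hz1 : r < ‖z‖) : B z ∉ B '' closedBall 0 r := by
  rintro ⟨y, hy, hyz⟩
  rw [mem_closedBall_zero_iff] at hy
  have h2 : y = z := hB.inj (by rw [mem_closedBall_zero_iff]; linarith)
    (by rw [mem_closedBall_zero_iff]; exact hz) hyz
  rw [h2] at hy
  linarith

theorem lf_of {B : E n → X} (hB : Box B) {f : E n → ℝ} (hf : ∀ z, 1 ≤ ‖z‖ → f z = 0) {z : E n}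
    (hz : ‖z‖ ≤ 2) : lf B f (B z) = f z := by
  unfold lf
  rcases le_or_gt ‖z‖ 1 with h | h
  · rw [if_pos ⟨z, by simpa using h, rfl⟩, iv_of hB hz]
  · rw [if_neg (not_mem_of hB (by norm_num) hz h), hf z h.le]

omit [TopologicalSpace X] [ChartedSpace (E n) X] in
theorem lf_off {B : E n → X} {f : E n → ℝ} {x : X} (hx : x ∉ B '' closedBall 0 1) :
    lf B f x = 0 := by
  unfold lf
  rw [if_neg hx]

/-- `lf B f` vanishes off the image of the closed ball of radius `r` -/
theorem lf_zero {B : E n → X} (hB : Box B) {f : E n → ℝ} {r : ℝ} (hf : ∀ z, r < ‖z‖ → f z = 0)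
    {x : X} (hx : x ∉ B '' closedBall 0 r) : lf B f x = 0 := by
  unfold lf
  split_ifs with h
  · obtain ⟨z, hz, rfl⟩ := h
    rw [mem_closedBall_zero_iff] at hz
    rw [iv_of hB (by linarith)]
    apply hf
    by_contra hcon
    exact hx ⟨z, by simpa using not_lt.1 hcon, rfl⟩
  · rfl

theorem lf_smooth [T2Space X] {B : E n → X} (hB : Box B) {f : E n → ℝ} (hf : ContDiff ℝ ∞ f)
    (hf0 : ∀ z, 1 ≤ ‖z‖ → f z = 0) (x : X) : ContMDiffAt (𝓡 n) 𝓘(ℝ, ℝ) ∞ (lf B f) x := by
  by_cases hx : x ∈ B '' ball 0 2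
  · have hev : lf B f =ᶠ[𝓝 x] fun y => f (iv B y) := by
      filter_upwards [(box_isOpen hB isOpen_ball ball_subset_closedBall).mem_nhds hx] with y hy
      obtain ⟨z, hz, rfl⟩ := hy
      rw [mem_ball_zero_iff] at hz
      rw [lf_of hB hf0 hz.le, iv_of hB hz.le]
    obtain ⟨z, hz, rfl⟩ := hx
    rw [mem_ball_zero_iff] at hz
    have h1 : ContMDiffAt (𝓡 n) 𝓘(ℝ, ℝ) ∞ (fun y => f (iv B y)) (B z) :=
      hf.contMDiff.contMDiffAt.comp (B z) (iv_ld hB hz).contMDiffAt
    exact h1.congr_of_eventuallyEq hev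
  · have hx1 : x ∉ B '' closedBall 0 1 := fun h => hx
      (image_mono (closedBall_subset_ball (by norm_num)) h)
    have hev : lf B f =ᶠ[𝓝 x] fun _ => 0 := by
      filter_upwards [(box_isCompact hB (by norm_num)).isClosed.isOpen_compl.mem_nhds hx1] with y hy
      exact lf_off hy
    exact contMDiffAt_const.congr_of_eventuallyEq hev

/-- in a box -/
theorem smooth_in_box {A : E n → X} (hA : Box A) {f : X → ℝ} {y : E n} (hy : ‖y‖ ≤ 2)
    (hf : ContMDiffAt (𝓡 n) 𝓘(ℝ, ℝ) ∞ f (A y)) : ContDiffAt ℝ ∞ (fun y => f (A y)) y :=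
  contMDiffAt_iff_contDiffAt.1 (hf.comp y (hA.ld y (by simpa using hy)).contMDiffAt)

/-- bump function, equal to one for `|z| ≤ 1/2` and zero for `|z| ≥ 3/4` -/
def b0 (n : ℕ) : ContDiffBump (0 : E n) := ⟨1 / 2, 3 / 4, by norm_num, by norm_num⟩

/-- bump function, positive exactly for `|z| < 1/2` -/
def p0 (n : ℕ) : ContDiffBump (0 : E n) := ⟨1 / 4, 1 / 2, by norm_num, by norm_num⟩

/-- bump function, equal to one for `|z| ≤ 3/4` and zero for `|z| ≥ 1` -/
def t0 (n : ℕ) : ContDiffBump (0 : E n) := ⟨3 / 4, 1, by norm_num, by norm_num⟩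

theorem b0_zero {z : E n} (hz : 3 / 4 ≤ ‖z‖) : b0 n z = 0 :=
  (b0 n).zero_of_le_dist (by rw [dist_zero_right]; exact hz)

theorem b0_one {z : E n} (hz : ‖z‖ ≤ 1 / 2) : b0 n z = 1 :=
  (b0 n).one_of_mem_closedBall (by rw [mem_closedBall_zero_iff]; exact hz)

theorem p0_zero {z : E n} (hz : 1 / 2 ≤ ‖z‖) : p0 n z = 0 :=
  (p0 n).zero_of_le_dist (by rw [dist_zero_right]; exact hz)

theorem p0_pos {z : E n} (hz : ‖z‖ < 1 / 2) : 0 < p0 n z :=
  (p0 n).pos_of_mem_ball (by rw [mem_ball_zero_iff]; exact hz)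

theorem t0_zero {z : E n} (hz : 1 ≤ ‖z‖) : t0 n z = 0 :=
  (t0 n).zero_of_le_dist (by rw [dist_zero_right]; exact hz)

theorem t0_one {z : E n} (hz : ‖z‖ ≤ 3 / 4) : t0 n z = 1 :=
  (t0 n).one_of_mem_closedBall (by rw [mem_closedBall_zero_iff]; exact hz)

section weights

variable {N : ℕ} (B : Fin N → E n → X)

/-- the bump functions on `X` -/
def bb (i : Fin N) (x : X) : ℝ := lf (B i) (b0 n) x

/-- the weights -/
def wt (i : Fin N) (x : X) : ℝ := bb B i x * ∏ j with j < i, (1 - bb B j x)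

/-- the function which is positive exactly near the bad points -/
def ps (x : X) : ℝ := ∑ i, lf (B i) (p0 n) x

omit [TopologicalSpace X] [ChartedSpace (E n) X] in
theorem bb_nonneg (i : Fin N) (x : X) : 0 ≤ bb B i x := by
  unfold bb lf
  split_ifs
  · exact (b0 n).nonneg
  · exact le_rfl

omit [TopologicalSpace X] [ChartedSpace (E n) X] in
theorem bb_le (i : Fin N) (x : X) : bb B i x ≤ 1 := by
  unfold bb lf
  split_ifs
  · exact (b0 n).le_one
  · norm_num

omit [TopologicalSpace X] [ChartedSpace (E n) X] in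
theorem wt_nonneg (i : Fin N) (x : X) : 0 ≤ wt B i x := by
  unfold wt
  apply mul_nonneg (bb_nonneg B i x)
  exact Finset.prod_nonneg fun j _ => sub_nonneg.2 (bb_le B j x)

omit [TopologicalSpace X] [ChartedSpace (E n) X] in
theorem wt_sum (x : X) : ∑ i, wt B i x = 1 - ∏ i, (1 - bb B i x) := by
  have h := Finset.prod_one_sub_ordered (Finset.univ : Finset (Fin N)) (fun i => bb B i x)
  unfold wt
  linarith

omit [TopologicalSpace X] [ChartedSpace (E n) X] in
theorem wt_sum_le (x : X) : ∑ i, wt B i x ≤ 1 := by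
  rw [wt_sum]
  have : 0 ≤ ∏ i, (1 - bb B i x) := Finset.prod_nonneg fun j _ => sub_nonneg.2 (bb_le B j x)
  linarith

omit [TopologicalSpace X] [ChartedSpace (E n) X] in
theorem ps_nonneg (x : X) : 0 ≤ ps B x := by
  unfold ps
  apply Finset.sum_nonneg
  intro i _
  unfold lf
  split_ifs
  · exact (p0 n).nonneg
  · exact le_rfl

omit [TopologicalSpace X] [ChartedSpace (E n) X] in
theorem ps_le (x : X) : ps B x ≤ N := by
  unfold ps
  have h : ∀ i ∈ (Finset.univ : Finset (Fin N)), lf (B i) (p0 n) x ≤ 1 := by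
    intro i _
    unfold lf
    split_ifs
    · exact (p0 n).le_one
    · norm_num
  calc _ ≤ ∑ _i : Fin N, (1 : ℝ) := Finset.sum_le_sum h
    _ = N := by simp

variable (hB : ∀ i, Box (B i))
include hB

theorem wt_zero {i : Fin N} {x : X} (hx : x ∉ B i '' closedBall 0 (3 / 4)) : wt B i x = 0 := by
  unfold wt bb
  rw [lf_zero (hB i) (fun z hz => b0_zero hz.le) hx, zero_mul]

theorem ps_pos {x : X} {i : Fin N} (hx : x ∈ B i '' ball 0 (1 / 2)) : 0 < ps B x := by
  obtain ⟨z, hz, rfl⟩ := hx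
  rw [mem_ball_zero_iff] at hz
  unfold ps
  apply Finset.sum_pos'
  · intro j _
    unfold lf
    split_ifs
    · exact (p0 n).nonneg
    · exact le_rfl
  · refine ⟨i, Finset.mem_univ i, ?_⟩
    rw [lf_of (hB i) (fun w hw => p0_zero (by linarith)) (by linarith)]
    exact p0_pos hz

theorem wt_sum_one {x : X} (hx : 0 < ps B x) : ∑ i, wt B i x = 1 := by
  rw [wt_sum]
  obtain ⟨i, hi⟩ : ∃ i, lf (B i) (p0 n) x ≠ 0 := by
    by_contra hcon
    push Not at hcon
    unfold ps at hx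
    simp [hcon] at hx
  have h1 : x ∈ B i '' closedBall 0 (1 / 2) := by
    by_contra hcon
    exact hi (lf_zero (hB i) (fun z hz => p0_zero hz.le) hcon)
  obtain ⟨z, hz, rfl⟩ := h1
  rw [mem_closedBall_zero_iff] at hz
  have h2 : bb B i (B i z) = 1 := by
    unfold bb
    rw [lf_of (hB i) (fun w hw => b0_zero (by linarith)) (by linarith), b0_one hz]
  rw [Finset.prod_eq_zero (Finset.mem_univ i) (by rw [h2, sub_self]), sub_zero]

variable [T2Space X]

theorem bb_smooth (i : Fin N) (x : X) : ContMDiffAt (𝓡 n) 𝓘(ℝ, ℝ) ∞ (bb B i) x :=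
  lf_smooth (hB i) (b0 n).contDiff (fun _ hz => b0_zero (by linarith)) x

theorem wt_smooth (i : Fin N) (x : X) : ContMDiffAt (𝓡 n) 𝓘(ℝ, ℝ) ∞ (wt B i) x := by
  have h1 : ContMDiffAt (𝓡 n) 𝓘(ℝ, ℝ) ∞ (fun x => ∏ j with j < i, (1 - bb B j x)) x := by
    apply contMDiffAt_finsetProd
    intro j _
    exact contMDiffAt_const.sub (bb_smooth B hB j x)
  exact (bb_smooth B hB i x).mul h1

theorem ps_smooth (x : X) : ContMDiffAt (𝓡 n) 𝓘(ℝ, ℝ) ∞ (ps B) x := by
  have h1 : ContMDiffAt (𝓡 n) 𝓘(ℝ, ℝ) ∞ (fun x => ∑ i, lf (B i) (p0 n) x) x := by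
    apply contMDiffAt_finsetSum
    intro i _
    exact lf_smooth (hB i) (p0 n).contDiff (fun _ hz => p0_zero (by linarith)) x
  exact h1

end weights

end Pool.Agent.U211.BL
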